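import Pool.Agent.helper29.OC.PIAP0
import Pool.Agent.helper74.TG.SW

/-!
# Project OC (MP_ebc808_nt): primes in arithmetic progressions
-/

set_option autoImplicit false

open Finset

namespace Pool.Agent.helper7.OC

/-- Lower bound of the right order for the number of primes `≡ b mod q` in `(x, 2 x]`. -/
theorem primes_ap (q b : ℕ) (hq : 0 < q) (hb : Nat.Coprime b q) :
    ∃ (c : ℝ) (x₀ : ℕ), 0 < c ∧ ∀ x : ℕ, x₀ ≤ x →
      c * x / Real.log x ≤ (((Ioc x (2 * x)).filter fun p => p.Prime ∧ p % q = b % q).card : ℝ) :=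
  PIAP.primes_ap_of q b hq hb (Pool.Agent.helper74.TG.siegel_walfisz 1 1)

/-- Uniform version in the class. -/
theorem primes_ap_unif (q : ℕ) (hq : 0 < q) :
    ∃ (c : ℝ) (x₀ : ℕ), 0 < c ∧ ∀ b : ℕ, Nat.Coprime b q → ∀ x : ℕ, x₀ ≤ x →
      c * x / Real.log x ≤ (((Ioc x (2 * x)).filter fun p => p.Prime ∧ p % q = b % q).card : ℝ) := by
  classical
  have h := fun b : ℕ => fun hb : Nat.Coprime b q => primes_ap q b hq hb
  have key : ∀ N : ℕ, ∃ (c : ℝ) (x₀ : ℕ), 0 < c ∧ ∀ b : ℕ, b < N → Nat.Coprime b q →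
      ∀ x : ℕ, x₀ ≤ x →
      c * x / Real.log x ≤ (((Ioc x (2 * x)).filter fun p => p.Prime ∧ p % q = b % q).card : ℝ) := by
    intro N
    induction N with
    | zero => exact ⟨1, 0, one_pos, fun b hb => absurd hb (by omega)⟩
    | succ N ih =>
      obtain ⟨c, x₀, hc, hx⟩ := ih
      by_cases hN : Nat.Coprime N q
      · obtain ⟨c', x₀', hc', hx'⟩ := h N hN
        refine ⟨min c c', max (max x₀ x₀') 1, lt_min hc hc', fun b hb hbq x hxx => ?_⟩
        have h1 : x₀ ≤ x := (le_max_left _ _).trans ((le_max_left _ _).trans hxx)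
        have h2 : x₀' ≤ x := (le_max_right _ _).trans ((le_max_left _ _).trans hxx)
        have h3 : (1 : ℝ) ≤ x := by exact_mod_cast (le_max_right _ _).trans hxx
        have h4 : 0 ≤ Real.log x := Real.log_nonneg h3
        rcases Nat.lt_succ_iff_lt_or_eq.1 hb with hlt | rfl
        · refine le_trans ?_ (hx b hlt hbq x h1)
          gcongr
          exact min_le_left _ _
        · refine le_trans ?_ (hx' x h2)
          gcongr
          exact min_le_right _ _
      · refine ⟨c, x₀, hc, fun b hb hbq x hxx => ?_⟩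
        rcases Nat.lt_succ_iff_lt_or_eq.1 hb with hlt | rfl
        · exact hx b hlt hbq x hxx
        · exact absurd hbq hN
  obtain ⟨c, x₀, hc, hx⟩ := key q
  refine ⟨c, x₀, hc, fun b hb x hxx => ?_⟩
  have h1 : Nat.Coprime (b % q) q := by
    unfold Nat.Coprime
    rw [← Nat.gcd_rec, Nat.gcd_comm]
    exact hb
  have := hx (b % q) (Nat.mod_lt _ hq) h1 x hxx
  rwa [Nat.mod_mod] at this

end Pool.Agent.helper7.OC
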