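import Pool.Agent.helper12.OC.BB3e

/-!
# Odd values of the partition function: the characters modulo `8 m t`
-/

set_option autoImplicit false

open Finset

namespace Pool.Agent.helper7.OC

open NumberTheorySymbols

lemma Bb3eGood.lift {q : ℕ} {g : ℕ → ℤ} (hg : Bb3eGood q g) (t : ℕ) : Bb3eGood (q * t) g where
  one := hg.one
  mul := hg.mul
  vals n hn := hg.vals n (Nat.Coprime.coprime_mul_right_right hn)
  per n := by
    rw [← hg.per (n % (q * t)), Nat.mod_mul_right_mod, hg.per]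

/-- The characters modulo `8 m t`: version of `chars` which avoids the prime factors of `t`. -/
theorem chars_t (m t : ℕ) (hs : Squarefree m) (hm : m % 8 = 7) (ht : t ≠ 0) : ∃ a b c : ℕ → ℝ,
    RC (8 * m * t) a ∧ RC (8 * m * t) b ∧ RC (8 * m * t) c ∧
    RC (8 * m * t) (fun n => a n * b n) ∧ RC (8 * m * t) (fun n => a n * c n) ∧
    RC (8 * m * t) (fun n => b n * c n) ∧ RC (8 * m * t) (fun n => a n * (b n * c n)) ∧
    ∀ p : ℕ, p.Prime → a p = 1 → b p = -1 → c p = -1 →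
      p % 8 = 5 ∧ jacobiSym (p : ℤ) m = -1 ∧ ¬ p ∣ t := by
  have hm0 : m ≠ 0 := by omega
  have hq : 1 ≤ 8 * m * t := Nat.one_le_iff_ne_zero.2 (by positivity)
  have ho : Odd m := by rw [Nat.odd_iff]; omega
  -- the odd part of `t`
  obtain ⟨v, t', ht', htt⟩ : ∃ v t', ¬ 2 ∣ t' ∧ t = 2 ^ v * t' :=
    Nat.exists_eq_pow_mul_and_not_dvd ht 2 (by norm_num)
  have ho' : Odd t' := by rw [← Nat.not_even_iff_odd, even_iff_two_dvd]; exact ht'
  have hcop8 : Nat.Coprime 8 (m * t') := by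
    have h1 : Nat.Coprime 2 (m * t') := by
      rw [Nat.coprime_two_left]; exact ho.mul ho'
    exact Nat.Coprime.pow_left 3 h1
  have hfull : ∀ n : ℕ, n.Coprime 8 → n.Coprime (m * t') → n.Coprime (8 * m * t) := by
    intro n h1 h2
    have h3 : n.Coprime 2 := Nat.Coprime.coprime_dvd_right (by norm_num) h1
    rw [htt]
    refine Nat.Coprime.mul_right (Nat.Coprime.mul_right h1 (Nat.Coprime.coprime_mul_right_right h2))
      (Nat.Coprime.mul_right (h3.pow_right v) (Nat.Coprime.coprime_mul_left_right h2))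
  -- special elements
  have hsp : ∀ s : ℕ, s.Coprime 8 → ∃ n, n % 8 = s % 8 ∧ n.Coprime (8 * m * t) ∧
      jacobiSym (n : ℤ) m = 1 := by
    intro s hs8
    obtain ⟨n, hn1, hn2⟩ := Nat.chineseRemainder hcop8 s 1
    refine ⟨n, hn1, hfull n ?_ ?_, ?_⟩
    · have := hn1.gcd_eq
      unfold Nat.Coprime
      rw [this]; exact hs8
    · have := hn2.gcd_eq
      unfold Nat.Coprime
      rw [this]; exact Nat.gcd_one_left _
    · have hn3 : n ≡ 1 [MOD m] := hn2.of_dvd (dvd_mul_right m t')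
      have h4 : (n : ℤ) % m = 1 % m := by
        unfold Nat.ModEq at hn3
        exact_mod_cast hn3
      rw [jacobiSym.mod_left, h4, ← jacobiSym.mod_left, jacobiSym.one_left]
  obtain ⟨n3, hn3, hn3c, hn3j⟩ := hsp 3 (by norm_num)
  obtain ⟨n5, hn5, hn5c, hn5j⟩ := hsp 5 (by norm_num)
  obtain ⟨p, hp, hpm⟩ := Nat.exists_prime_and_dvd (show m ≠ 1 by omega)
  have hp2 : p ≠ 2 := by
    rintro rfl
    exact (Nat.not_even_iff_odd.2 ho) (even_iff_two_dvd.2 hpm)
  -- the part of `t'` prime to `p`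
  have ht'0 : t' ≠ 0 := by rintro rfl; simp at ht'
  obtain ⟨w, t'', ht'', htt'⟩ : ∃ w t'', ¬ p ∣ t'' ∧ t' = p ^ w * t'' :=
    Nat.exists_eq_pow_mul_and_not_dvd ht'0 p hp.one_lt.ne'
  have hpe : ¬ p ∣ 8 * (m / p) * t'' := by
    intro hd
    rcases (Nat.Prime.dvd_mul hp).1 hd with hd | hd
    · rcases (Nat.Prime.dvd_mul hp).1 hd with h | h
      · exact hp2 ((Nat.prime_dvd_prime_iff_eq hp Nat.prime_two).1
          (hp.dvd_of_dvd_pow (show p ∣ 2 ^ 3 from h)))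
      · obtain ⟨u, hu⟩ := h
        have h5 : p * p ∣ m := ⟨u, by rw [mul_assoc, ← hu, Nat.mul_div_cancel' hpm]⟩
        exact hp.one_lt.ne' (Nat.isUnit_iff.1 (hs p h5))
    · exact ht'' hd
  obtain ⟨n1, hn1, hn1p, hn1j⟩ := exists_symbol m (8 * (m / p) * t'') ho p hp hpm hpe
    ⟨8 * t'', by ring⟩
  have hn18 : n1 % 8 = 1 := hn1.of_dvd ⟨m / p * t'', by ring⟩
  have hn1c : n1.Coprime (8 * m * t) := by
    have h6 : n1.Coprime (8 * (m / p) * t'') := by
      have := hn1.gcd_eq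
      rw [Nat.gcd_one_left] at this
      exact this
    have h8 : n1.Coprime 8 := Nat.Coprime.coprime_dvd_right ⟨m / p * t'', by ring⟩ h6
    have h9 : n1.Coprime (m / p) := Nat.Coprime.coprime_dvd_right ⟨8 * t'', by ring⟩ h6
    have h10 : n1.Coprime t'' := Nat.Coprime.coprime_dvd_right ⟨8 * (m / p), by ring⟩ h6
    refine hfull n1 h8 ?_
    rw [htt', show m = m / p * p from (Nat.div_mul_cancel hpm).symm]
    exact Nat.Coprime.mul_right (Nat.Coprime.mul_right h9 hn1p)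
      (Nat.Coprime.mul_right (hn1p.pow_right w) h10)
  -- values
  have e4 : ∀ n : ℕ, n % 8 = 1 → ZMod.χ₄ (n : ZMod 4) = 1 := by
    intro n hn
    rw [ZMod.χ₄_nat_eq_if_mod_four, if_neg (by omega), if_pos (by omega)]
  have e8 : ∀ n : ℕ, n % 8 = 1 → ZMod.χ₈ (n : ZMod 8) = 1 := by
    intro n hn
    rw [ZMod.χ₈_nat_eq_if_mod_eight, if_neg (by omega), if_pos (by omega)]
  have e43 : ZMod.χ₄ (n3 : ZMod 4) = -1 := by
    rw [ZMod.χ₄_nat_eq_if_mod_four, if_neg (by omega), if_neg (by omega)]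
  have e83 : ZMod.χ₈ (n3 : ZMod 8) = -1 := by
    rw [ZMod.χ₈_nat_eq_if_mod_eight, if_neg (by omega), if_neg (by omega)]
  have e45 : ZMod.χ₄ (n5 : ZMod 4) = 1 := by
    rw [ZMod.χ₄_nat_eq_if_mod_four, if_neg (by omega), if_pos (by omega)]
  have e85 : ZMod.χ₈ (n5 : ZMod 8) = -1 := by
    rw [ZMod.χ₈_nat_eq_if_mod_eight, if_neg (by omega), if_neg (by omega)]
  have gA := (bb3e_chi4 m).lift t
  have gB := (bb3e_chi8 m).lift t
  have gC := (bb3e_jac m hm0).lift t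
  refine ⟨bb3eR (8 * m * t) (fun n => ZMod.χ₄ (n : ZMod 4)),
    bb3eR (8 * m * t) (fun n => ZMod.χ₈ (n : ZMod 8)),
    bb3eR (8 * m * t) (fun n => jacobiSym (n : ℤ) m), gA.rc hq n3 hn3c e43, gB.rc hq n3 hn3c e83,
    gC.rc hq n1 hn1c hn1j, ?_, ?_, ?_, ?_, ?_⟩
  · rw [bb3eR_mul]
    exact (gA.prod gB).rc hq n5 hn5c (by rw [e45, e85]; norm_num)
  · rw [bb3eR_mul]
    exact (gA.prod gC).rc hq n1 hn1c (by rw [e4 n1 hn18, hn1j]; norm_num)
  · rw [bb3eR_mul]
    exact (gB.prod gC).rc hq n1 hn1c (by rw [e8 n1 hn18, hn1j]; norm_num)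
  · have h9 : (fun n => bb3eR (8 * m * t) (fun n => ZMod.χ₄ (n : ZMod 4)) n *
        (bb3eR (8 * m * t) (fun n => ZMod.χ₈ (n : ZMod 8)) n *
          bb3eR (8 * m * t) (fun n => jacobiSym (n : ℤ) m) n)) =
        bb3eR (8 * m * t) (fun n => ZMod.χ₄ (n : ZMod 4) *
          (ZMod.χ₈ (n : ZMod 8) * jacobiSym (n : ℤ) m)) := by
      rw [← bb3eR_mul, ← bb3eR_mul]
    rw [h9]
    exact (gA.prod (gB.prod gC)).rc hq n1 hn1c (by
      rw [e4 n1 hn18, e8 n1 hn18, hn1j]; norm_num)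
  · intro p hp ha hb hc
    unfold bb3eR at ha hb hc
    by_cases h1 : p.Coprime (8 * m * t)
    · rw [if_pos h1] at ha hb hc
      have ha' : ZMod.χ₄ (p : ZMod 4) = 1 := by exact_mod_cast ha
      have hb' : ZMod.χ₈ (p : ZMod 8) = -1 := by exact_mod_cast hb
      have hc' : jacobiSym (p : ℤ) m = -1 := by exact_mod_cast hc
      refine ⟨?_, hc', ?_⟩
      · rw [ZMod.χ₄_nat_eq_if_mod_four] at ha'
        rw [ZMod.χ₈_nat_eq_if_mod_eight] at hb'
        split_ifs at ha' with h2 h3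
        split_ifs at hb' with h4
        omega
      · exact (Nat.Prime.coprime_iff_not_dvd hp).1 (Nat.Coprime.coprime_mul_left_right h1)
    · rw [if_neg h1] at ha
      norm_num at ha

end Pool.Agent.helper7.OC
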