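import Pool.Agent.helper7.OC.C3
import Pool.Agent.helper12.PE.Fin
import Pool.Agent.helper79.OC.AA4

/-!
# Project OC (MP_ebc808_nt): the covering lemma for periodic sequences
-/

set_option autoImplicit false

open Finset PowerSeries
open Pool.Agent.helper12.PE (DD RR err r_mod coeff_DD_pow RR_region1 exists_of_err_ne_zero
  mem_pentSet sq_pentagonal)

namespace Pool.Agent.helper7.OC

/-! Three small lemmas of `Pool.Agent.helper12.PE.Main`, copied to keep the imports short. -/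

lemma cg_index_facts {t b m j M : ℕ} (hj : 3 * j + 1 = 4 ^ m) (hM : (M : ℕ) ≡ 8 * b + j [MOD 8 * t])
    (hge : 4 ^ m ≤ 3 * M + 1) :
    8 * ((M - j) / 8) + j = M ∧ (M - j) / 8 ≡ b [MOD t] ∧ 24 * ((M - j) / 8) + 4 ^ m = 3 * M + 1 := by
  have hjM : j ≤ M := by omega
  have h1 : M - j ≡ 8 * b [MOD 8 * t] := by
    have : (M - j) + j ≡ 8 * b + j [MOD 8 * t] := by rwa [Nat.sub_add_cancel hjM]
    exact Nat.ModEq.add_right_cancel' j this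
  have h8 : 8 ∣ M - j := by
    have h2 : M - j ≡ 8 * b [MOD 8] := h1.of_mul_right t
    rw [← Nat.modEq_zero_iff_dvd]
    exact h2.trans (Nat.modEq_zero_iff_dvd.mpr ⟨b, rfl⟩)
  obtain ⟨n, hn⟩ := h8
  have h3 : (M - j) / 8 = n := by omega
  rw [h3]
  refine ⟨by omega, ?_, by omega⟩
  rw [hn] at h1
  exact Nat.ModEq.mul_left_cancel' (by norm_num) h1

lemma cg_err_eq {r : ℕ → ZMod 2} {m j M : ℕ} (hj : 3 * j + 1 = 4 ^ m) (n : ℕ) (hn : 8 * n + j = M) :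
    err r m n = coeff M (DD ^ j) + RR r (4 ^ m) n := by
  rw [err, ← coeff_DD_pow hj, hn]

lemma cg_r_congr {r : ℕ → ZMod 2} {t : ℕ} (hr : ∀ n, r (n + t) = r n) {a b : ℕ} (h : a ≡ b [MOD t]) :
    r a = r b := by
  rw [← r_mod hr a, ← r_mod hr b, h]

lemma cg_exists_residue {q p : ℕ} (hpq : p.Coprime q) (hq : 1 < q) (a : ℕ) :
    ∃ c, p * c ≡ a [MOD q] := by
  obtain ⟨d, _, hd⟩ := Nat.exists_mul_mod_eq_one_of_coprime hpq hq
  refine ⟨d * a, ?_⟩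
  have h1 : p * d ≡ 1 [MOD q] := by
    rw [Nat.ModEq, hd, Nat.mod_eq_of_lt hq]
  have := h1.mul_right a
  rwa [one_mul, mul_assoc] at this

/-- If `md 𝒟 T * w` belongs to an index behind a jump, the coefficient of `Δ ^ j` vanishes there and
`p(u)` differs from the periodic sequence for some `u`. -/
theorem cover_gen {n : ℕ} {L : Fin n → Finset ℕ} {K : Fin n → ℕ} {𝒟 : Finset ℕ} (hS : Sys L 𝒟)
    (μ i t b X : ℕ) (r : ℕ → ZMod 2) (ht : 1 ≤ t) (h2 : 2 ^ i ∣ t) (hμi : i ≤ 2 * μ) (hμ : 1 ≤ μ)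
    (hr : ∀ n, r (n + t) = r n) (hb : r b = 1) (hcard : 𝒟.card + ∑ i, K i = 2 ^ (μ - 1))
    {T : Fin n → Finset ℕ} (hT : T ∈ Fam L K) {w : ℕ} (hw : ∀ ℓ ∈ un 𝒟 T, ¬ ℓ ∣ w)
    (hcl : md 𝒟 T * w ≡ 8 * b + (4 ^ μ - 1) / 3 [MOD 8 * t])
    (hreg : ∃ k : ℕ, (24 * t * k + 1) ^ 2 * 4 ^ μ ≤ 3 * (md 𝒟 T * w) + 1 ∧
      3 * (md 𝒟 T * w) + 1 < (24 * t * k + 5) ^ 2 * 4 ^ μ)
    (hX : md 𝒟 T * w ≤ 8 * X) (hX1 : 1 ≤ X) : ∃ u ≤ X, u % 2 ^ i = b % 2 ^ i ∧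
      (Fintype.card (Nat.Partition u) : ZMod 2) ≠ r u ∧
      Hit (md 𝒟 T) μ (Nat.sqrt (25 * X) / 2 ^ μ) (24 * (u : ℤ) - 1) w := by
  set j := (4 ^ μ - 1) / 3 with hj
  have hj3 : 3 * j + 1 = 4 ^ μ := by
    have h1 : 4 ^ μ % 3 = 1 := by rw [Nat.pow_mod]; norm_num
    have h2 : 1 ≤ 4 ^ μ := Nat.one_le_pow _ _ (by norm_num)
    omega
  have hG : 1 ≤ 4 ^ μ := Nat.one_le_pow _ _ (by norm_num)
  obtain ⟨k, hk1, hk2⟩ := hreg
  have hge : 4 ^ μ ≤ 3 * (md 𝒟 T * w) + 1 := by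
    refine le_trans ?_ hk1
    exact Nat.le_mul_of_pos_left _ (by positivity)
  obtain ⟨a1, a2, a3⟩ := cg_index_facts hj3 hcl hge
  set n₀ := (md 𝒟 T * w - j) / 8 with hn₀
  -- the coefficient
  have hcoef : coeff (md 𝒟 T * w) (DD ^ j) = 0 := by
    have h1 := coeff_zero μ hμ (un 𝒟 T) (fun ℓ hℓ => by
      have := hS.prime_un hT hℓ
      exact ⟨this.1, by omega⟩) (by rw [hS.card_un hT, hcard]) w hw
    rwa [← hS.md_eq hT, mul_comm w] at h1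
  have hRR : Pool.Agent.helper12.PE.RR r (4 ^ μ) n₀ = r n₀ :=
    RR_region1 hr hG (by rw [a3]; exact hk1) (by rw [a3]; exact hk2)
  have hrn : r n₀ = 1 := by rw [cg_r_congr hr a2, hb]
  have herr : Pool.Agent.helper12.PE.err r μ n₀ ≠ 0 := by
    rw [cg_err_eq hj3 n₀ a1, hcoef, hRR, hrn]
    decide
  obtain ⟨v, hv1, hv2⟩ := exists_of_err_ne_zero herr
  rw [mem_pentSet hG] at hv1
  set u := n₀ - 4 ^ μ * pentagonal v with hu
  have hun : u + 4 ^ μ * pentagonal v = n₀ := Nat.sub_add_cancel hv1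
  have hn₀X : n₀ ≤ X := by omega
  have hdiv : 2 ^ i ∣ 4 ^ μ := by
    rw [show (4 : ℕ) = 2 ^ 2 by norm_num, ← pow_mul]
    exact pow_dvd_pow _ hμi
  have heq : 3 * (md 𝒟 T * w) + 1 = 24 * u + (2 ^ μ * (6 * v - 1).natAbs) ^ 2 := by
    have h1 := sq_pentagonal v
    have h3 : (((6 * v - 1).natAbs : ℕ) : ℤ) ^ 2 = 24 * (pentagonal v : ℤ) + 1 := by
      rw [Int.natCast_natAbs, sq_abs, h1]
    have h4 : ((2 : ℤ) ^ μ) ^ 2 = 4 ^ μ := by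
      rw [← pow_mul, mul_comm, pow_mul]; norm_num
    have h5 : ((3 * (md 𝒟 T * w) + 1 : ℕ) : ℤ) = ((24 * u + (2 ^ μ * (6 * v - 1).natAbs) ^ 2 : ℕ) : ℤ) := by
      rw [← a3, ← hun]
      push_cast
      rw [mul_pow, h4]
      rw [sq_abs, ← h1]
      ring
    exact_mod_cast h5
  refine ⟨u, by omega, ?_, hv2, (6 * v - 1).natAbs, ?_, ?_⟩
  · have h3 : u ≡ n₀ [MOD 2 ^ i] := by
      obtain ⟨c, hc⟩ := hdiv
      rw [← hun, hc, mul_assoc]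
      exact (Nat.modEq_iff_dvd' (Nat.le_add_right _ _)).2 ⟨c * pentagonal v, by
        rw [Nat.add_sub_cancel_left]⟩
    exact (h3.trans (a2.of_dvd h2))
  · rw [mem_Icc, Nat.le_div_iff_mul_le (by positivity), Nat.le_sqrt']
    refine ⟨?_, ?_⟩
    · have : 6 * v - 1 ≠ 0 := by omega
      omega
    · rw [mul_comm _ (2 ^ μ)]
      omega
  · have h5 : ((3 * (md 𝒟 T * w) + 1 : ℕ) : ℤ) = ((24 * u + (2 ^ μ * (6 * v - 1).natAbs) ^ 2 : ℕ) : ℤ) := by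
      rw [heq]
    push_cast at h5 ⊢
    linarith

end Pool.Agent.helper7.OC
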