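import Pool.Agent.helper29.OC.Gen

/-!
# Project OC (MP_ebc808_nt): all eventually periodic sequences
-/

set_option autoImplicit false

open Finset

namespace Pool.Agent.helper7.OC

open Classical in
/-- The sequence takes the value `1` somewhere in the class: loss `(loglog X) ^ 2`. -/
theorem gen_one {r : ℕ → ZMod 2} {t N₀ i b : ℕ} (ht : 1 ≤ t) (hr : ∀ n, N₀ ≤ n → r (n + t) = r n)
    (hN : N₀ ≤ b) (hb : r b = 1) :
    ∃ c : ℝ, 0 < c ∧ ∃ X₀ : ℕ, ∀ X : ℕ, X₀ ≤ X →
      c * √X * Real.log X / (Real.log (Real.log X)) ^ 2 ≤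
      (((range (X + 1)).filter fun n => n % 2 ^ i = b % 2 ^ i ∧
        (Fintype.card (Nat.Partition n) : ZMod 2) ≠ r n).card : ℝ) := by
  have hk : ∀ k n, N₀ ≤ n → r (n + t * k) = r n := by
    intro k
    induction k with
    | zero => simp
    | succ k ih =>
      intro n hn
      rw [mul_add, mul_one, ← add_assoc, hr _ (by omega), ih n hn]
  have hN' : ∀ n, N₀ ≤ n + t * N₀ := fun n =>
    le_trans (Nat.le_mul_of_pos_left _ ht) (Nat.le_add_left _ _)
  set r' : ℕ → ZMod 2 := fun n => r (n + t * N₀) with hr'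
  have hper : ∀ k n, r' (n + t * k) = r' n := by
    intro k n
    rw [hr']
    simp only
    rw [show n + t * k + t * N₀ = n + t * N₀ + t * k by ring, hk k _ (hN' n)]
  obtain ⟨c, hc, X₀, h⟩ := gen_periodic (t * 2 ^ i) i b N₀ (Nat.mul_pos ht (by positivity))
    (dvd_mul_left _ _) r' (fun n => hper (2 ^ i) n) (by rw [hr']; simp only; rw [hk _ _ hN, hb])
  refine ⟨c, hc, X₀, fun X hX => h X hX _ ?_ ?_⟩
  · intro u hu
    rw [mem_filter, mem_range] at hu
    omega
  · intro u hu hu0 hui hur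
    rw [mem_filter, mem_range]
    refine ⟨by omega, hui, ?_⟩
    rwa [hr', show (fun n => r (n + t * N₀)) u = r (u + t * N₀) from rfl, hk _ _ hu0] at hur

open Classical in
/-- The sequence vanishes eventually on the class: loss `(loglog X) ^ 3`. -/
theorem gen_zero {r : ℕ → ZMod 2} {N₀ i a : ℕ}
    (hr : ∀ n, N₀ ≤ n → n % 2 ^ i = a % 2 ^ i → r n = 0) :
    ∃ c : ℝ, 0 < c ∧ ∃ X₀ : ℕ, ∀ X : ℕ, X₀ ≤ X →
      c * √X * Real.log X / (Real.log (Real.log X)) ^ 3 ≤
      (((range (X + 1)).filter fun n => n % 2 ^ i = a % 2 ^ i ∧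
        (Fintype.card (Nat.Partition n) : ZMod 2) ≠ r n).card : ℝ) := by
  obtain ⟨c, hc, X₀, h⟩ := odd_class i a
  obtain ⟨X₁, h₁⟩ := log_div_large 1 one_pos (2 * N₀ / c)
  obtain ⟨X₂, h₂⟩ := log_large 3
  refine ⟨c / 2, by positivity, max (max X₀ X₁) (max X₂ 1), fun X hX => ?_⟩
  have b0 : X₀ ≤ X := by omega
  have b1 : X₁ ≤ X := by omega
  have b2 : X₂ ≤ X := by omega
  have b3 : 1 ≤ X := by omega
  have hXr : (1 : ℝ) ≤ X := by exact_mod_cast b3
  have hlog := h₂ X b2
  set x := Real.log X with hx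
  have hx0 : 0 < x := by linarith
  have hll : 0 < Real.log x := Real.log_pos (by linarith)
  have h3 := h X b0
  have h4 := h₁ X b1
  rw [one_mul] at h4
  set F := ((range (X + 1)).filter fun n => n % 2 ^ i = a % 2 ^ i ∧
        (Fintype.card (Nat.Partition n) : ZMod 2) ≠ r n) with hF
  have h5 : (((range (X + 1)).filter fun u => u % 2 ^ i = a % 2 ^ i ∧
      Odd (Fintype.card (Nat.Partition u))).card : ℝ) ≤ F.card + N₀ := by
    have hsub : ((range (X + 1)).filter fun u => u % 2 ^ i = a % 2 ^ i ∧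
      Odd (Fintype.card (Nat.Partition u))) ⊆ F ∪ range N₀ := by
      intro u hu
      rw [mem_filter] at hu
      rw [mem_union, hF, mem_filter, mem_range (n := N₀)]
      by_cases hu0 : u < N₀
      · exact Or.inr hu0
      · refine Or.inl ⟨hu.1, hu.2.1, ?_⟩
        rw [hr u (by omega) hu.2.1, ZMod.natCast_ne_zero_iff_odd]
        exact hu.2.2
    have := (card_le_card hsub).trans (card_union_le _ _)
    rw [card_range] at this
    exact_mod_cast this
  have h6 : (N₀ : ℝ) ≤ c / 2 * √X * x / Real.log x ^ 3 := by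
    have h7 : Real.log x ≤ √(X : ℝ) := by
      have e1 : Real.log x ≤ x := (Real.log_le_sub_one_of_pos hx0).trans (by linarith)
      have e2 : x ≤ √(X : ℝ) := by
        have e3 : x = 2 * Real.log (√(X : ℝ)) := by
          rw [hx, Real.log_sqrt (by linarith)]; ring
        have e4 : 0 < √(X : ℝ) := Real.sqrt_pos.2 (by linarith)
        have e5 := Real.log_le_sub_one_of_pos (x := √(X : ℝ) / 2) (by positivity)
        rw [Real.log_div e4.ne' (by norm_num)] at e5
        have := Real.log_two_lt_d9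
        rw [e3]; linarith
      linarith
    rw [le_div_iff₀ (by positivity)]
    have h8 : 2 * (N₀ : ℝ) * Real.log x ^ 2 ≤ x * c := by
      rw [le_div_iff₀ (by positivity)] at h4
      have : 2 * (N₀ : ℝ) / c * Real.log x ^ 2 = 2 * (N₀ : ℝ) * Real.log x ^ 2 / c := by ring
      rw [← hx, this, div_le_iff₀ hc] at h4
      exact h4
    calc (N₀ : ℝ) * Real.log x ^ 3 = (2 * (N₀ : ℝ) * Real.log x ^ 2) * Real.log x / 2 := by ring
      _ ≤ (x * c) * √X / 2 := by gcongr
      _ = c / 2 * √X * x := by ring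
  have h9 : c * √X * x / Real.log x ^ 3 = 2 * (c / 2 * √X * x / Real.log x ^ 3) := by ring
  rw [h9] at h3
  linarith

open Classical in
/-- **Main theorem.** -/
theorem all_periodic (r : ℕ → ZMod 2) (t N₀ i a : ℕ) (ht : 1 ≤ t)
    (hr : ∀ n, N₀ ≤ n → r (n + t) = r n) :
    ∃ c : ℝ, 0 < c ∧ ∃ X₀ : ℕ, ∀ X : ℕ, X₀ ≤ X →
      c * √X * Real.log X / (Real.log (Real.log X)) ^ 3 ≤
        (((range (X + 1)).filter fun n => n % 2 ^ i = a % 2 ^ i ∧
          (Fintype.card (Nat.Partition n) : ZMod 2) ≠ r n).card : ℝ) ∧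
      ((∃ b ≥ N₀, b % 2 ^ i = a % 2 ^ i ∧ r b = 1) →
        c * √X * Real.log X / (Real.log (Real.log X)) ^ 2 ≤
        (((range (X + 1)).filter fun n => n % 2 ^ i = a % 2 ^ i ∧
          (Fintype.card (Nat.Partition n) : ZMod 2) ≠ r n).card : ℝ)) := by
  by_cases hex : ∃ b ≥ N₀, b % 2 ^ i = a % 2 ^ i ∧ r b = 1
  · obtain ⟨b, hb, hba, hrb⟩ := hex
    obtain ⟨c, hc, X₀, h⟩ := gen_one (i := i) ht hr hb hrb
    obtain ⟨X₂, h₂⟩ := log_large 3
    refine ⟨c, hc, max (max X₀ X₂) 1, fun X hX => ?_⟩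
    have h3 := h X (by omega)
    rw [hba] at h3
    refine ⟨le_trans ?_ h3, fun _ => h3⟩
    have hlog := h₂ X (by omega)
    have h1 : 1 ≤ Real.log (Real.log X) := by
      rw [Real.le_log_iff_exp_le (by linarith)]
      linarith [Real.exp_one_lt_d9]
    have h4 : (0 : ℝ) ≤ c * √X * Real.log X := by
      have : 0 ≤ Real.log X := by linarith
      positivity
    refine div_le_div_of_nonneg_left h4 (by positivity) ?_
    exact pow_le_pow_right₀ h1 (by norm_num)
  · have h0 : ∀ n, N₀ ≤ n → n % 2 ^ i = a % 2 ^ i → r n = 0 := by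
      intro n hn hna
      by_contra hne
      apply hex
      refine ⟨n, hn, hna, ?_⟩
      have : ∀ z : ZMod 2, z ≠ 0 → z = 1 := by decide
      exact this _ hne
    obtain ⟨c, hc, X₀, h⟩ := gen_zero h0
    exact ⟨c, hc, X₀, fun X hX => ⟨h X hX, fun hb => absurd hb hex⟩⟩

end Pool.Agent.helper7.OC
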