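import Pool.Agent.helper7.OC.C7

/-!
# OC core 7: existence of the data, the constants `CD`, `C₁` before `ε`
-/

set_option autoImplicit false

open Finset

namespace Pool.Agent.helper7.OC

/-- `setup` of helper7, with the constants `CD`, `C₁` chosen before `ε` (same proof). -/
theorem setup' (t s N₀ : ℕ) (ht : 1 ≤ t) : ∃ (CD C₁ : ℕ), ∀ ε : ℝ, 0 < ε → ∃ c₀ : ℝ, 0 < c₀ ∧
    ∃ X₀ : ℕ, ∀ X : ℕ, X₀ ≤ X → Nonempty (Data X t s N₀ CD C₁ c₀ ε) := by
  classical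
  obtain ⟨C₁, c₂, b₀, hC₁, hc₂, hblock⟩ := block_lower
  obtain ⟨CD, hlastH⟩ := harm_last C₁ c₂ hc₂
  obtain ⟨C₃', hforced⟩ := forced t ht
  obtain ⟨C₄, hC₄, hharm⟩ := harm_count C₁ c₂ hc₂
  refine ⟨CD, C₁, fun ε hε => ?_⟩
  obtain ⟨c₀, hc₀, X₁, hnum⟩ := num_choice CD (max 1 C₃') s N₀ C₄ ε hC₄ hε
  obtain ⟨X₂, hexc⟩ := exc_total C₁
  obtain ⟨X₃, hnorm⟩ := normal_spec C₁
  obtain ⟨X₄, hfacts⟩ := facts CD C₁ b₀ c₂ hc₂
  refine ⟨c₀, hc₀, max (max X₁ X₂) (max X₃ X₄), fun X hX => ?_⟩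
  have hX₁ : X₁ ≤ X := ((le_max_left _ _).trans (le_max_left _ _)).trans hX
  have hX₂ : X₂ ≤ X := ((le_max_right _ _).trans (le_max_left _ _)).trans hX
  have hX₃ : X₃ ≤ X := ((le_max_left _ _).trans (le_max_right _ _)).trans hX
  have hX₄ : X₄ ≤ X := ((le_max_right _ _).trans (le_max_right _ _)).trans hX
  obtain ⟨a, n, μ, Kf, h2μ, hμge, hμle, hage, hale, hn1, hnL, hlast, hlow, hsum, hsize, hP2, hP1⟩ :=
    hnum X hX₁
  set k₀ := 2 ^ (μ - 1) with hk₀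
  set C₃ := max 1 C₃' with hC₃
  have hk1 : 1 ≤ k₀ := Nat.one_le_two_pow
  have hk₀x : (k₀ : ℝ) ≤ Real.log X := by
    refine le_trans ?_ hμle
    rw [hk₀]; push_cast
    exact pow_le_pow_right₀ (by norm_num) (by omega)
  have F := hfacts X hX₄ a n k₀ Kf hage hale hk₀x
  have hexc' := hexc X hX₂ a n hage hnL
  have hnorm' := fun u => hnorm X hX₃ a n u hage
  clear hexc hnorm hfacts hnum
  set x := Real.log X with hx
  have x0 : 0 < x := lt_of_lt_of_le one_pos F.x1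
  -- blocks
  have hb : ∀ i, a ≤ a * 2 ^ i := fun i => Nat.le_mul_of_pos_right _ (by positivity)
  have hb1 : ∀ i, 1 ≤ a * 2 ^ i := fun i => F.a1.trans (hb i)
  have hPb : ∀ i, c₂ / ((a * 2 ^ i : ℕ) : ℝ) ≤ hs (Pb a C₁ i) := fun i =>
    hblock (a * 2 ^ i) (F.ab.trans (hb i))
  have hPmem : ∀ i, ∀ ℓ ∈ Pb a C₁ i, ℓ.Prime ∧ 2 ^ (a * 2 ^ i) < ℓ := fun i ℓ hℓ => by
    rw [mem_Pb] at hℓ; exact ⟨hℓ.2.1, hℓ.1.1⟩
  have hV1 : ∀ i, 1 ≤ 2 ^ (a * 2 ^ i) := fun i => Nat.one_le_two_pow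
  have hratio := fun i => F.ratio (a * 2 ^ i) (hb i)
  -- forced primes
  have hchoose : ∀ m ∈ Harm a C₁ k₀ (n - 1), ∃ ℓ : ℕ, ℓ.Prime ∧ ℓ % 8 = 5 ∧ ¬ ℓ ∣ t ∧
      jacobiSym (ℓ : ℤ) m = -1 ∧ ℓ ≤ C₃' * m ^ C₃' := fun m hm => by
    rw [mem_Harm] at hm
    exact hforced m hm.2.1 (by omega)
  choose! Fp hFp using hchoose
  set 𝒟 := (Harm a C₁ k₀ (n - 1)).image Fp with h𝒟
  have hDcard : 𝒟.card ≤ CD := by
    refine card_image_le.trans ?_
    exact hlastH a k₀ (n - 1) (hb1 _) hlast (hPb _)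
  have hDmem : ∀ ℓ ∈ 𝒟, ℓ.Prime ∧ ℓ % 8 = 5 ∧ ¬ ℓ ∣ t ∧ ℓ ≤ C₃ * (8 ^ k₀) ^ C₃ := by
    intro ℓ hℓ
    rw [h𝒟, mem_image] at hℓ
    obtain ⟨m, hm, rfl⟩ := hℓ
    obtain ⟨h1, h2, h3, _, h5⟩ := hFp m hm
    refine ⟨h1, h2, h3, h5.trans ?_⟩
    rw [mem_Harm] at hm
    calc C₃' * m ^ C₃' ≤ C₃ * (8 ^ k₀) ^ C₃' :=
          Nat.mul_le_mul (le_max_right _ _) (Nat.pow_le_pow_left hm.1.2 _)
      _ ≤ C₃ * (8 ^ k₀) ^ C₃ :=
          Nat.mul_le_mul_left _ (Nat.pow_le_pow_right (by positivity) (le_max_right _ _))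
  have hC3pos : 1 ≤ C₃ * (8 ^ k₀) ^ C₃ := Nat.one_le_iff_ne_zero.mpr (by
    have : 1 ≤ C₃ := le_max_left _ _
    positivity)
  -- the scales
  set L : Fin n → Finset ℕ := fun i => Pb a C₁ i.val \ 𝒟 with hL
  set K : Fin n → ℕ := fun i => if i.val = 0 then k₀ - s - 𝒟.card - ∑ j ∈ Ico 1 n, Kf j else Kf i.val
    with hK
  set K' : ℕ → ℕ := fun i => if i = 0 then k₀ - s - 𝒟.card - ∑ j ∈ Ico 1 n, Kf j else Kf i with hK'
  have hKK' : ∀ i : Fin n, K i = K' i.val := fun i => rfl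
  have hIco : ∀ i ∈ Ico 1 n, K' i = Kf i := fun i hi => by
    rw [mem_Ico] at hi; rw [hK']; simp only; rw [if_neg (by omega)]
  have hcard : 𝒟.card + ∑ i, K i + s = k₀ := by
    have e1 : ∑ i, K i = K' 0 + ∑ i ∈ Ico 1 n, K' i := sum_fin_nat n hn1 K'
    have e3 : ∑ i ∈ Ico 1 n, K' i = ∑ j ∈ Ico 1 n, Kf j := sum_congr rfl hIco
    rw [e1, e3]
    have e2 : K' 0 = k₀ - s - 𝒟.card - ∑ j ∈ Ico 1 n, Kf j := by rw [hK']; simp
    rw [e2]; omega
  have hK0 : k₀ ≤ 2 * K' 0 := by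
    have e2 : K' 0 = k₀ - s - 𝒟.card - ∑ j ∈ Ico 1 n, Kf j := by rw [hK']; simp
    rw [e2]; omega
  have hKle : ∀ i, K i ≤ k₀ := fun i => by
    have := single_le_sum (f := K) (fun j _ => Nat.zero_le _) (mem_univ i)
    omega
  -- size of the exponents
  have hSle : ∑ i : Fin n, a * 2 ^ i.val * K i ≤ a * k₀ + ∑ i ∈ Ico 1 n, a * 2 ^ i * Kf i := by
    have e1 : ∑ i : Fin n, a * 2 ^ i.val * K i = a * 2 ^ 0 * K' 0 + ∑ i ∈ Ico 1 n, a * 2 ^ i * K' i :=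
      sum_fin_nat n hn1 (fun i => a * 2 ^ i * K' i)
    rw [e1, sum_congr rfl (fun i hi => by rw [hIco i hi])]
    refine Nat.add_le_add_right ?_ _
    rw [pow_zero, mul_one]
    refine Nat.mul_le_mul_left _ ?_
    have e2 : K' 0 = k₀ - s - 𝒟.card - ∑ j ∈ Ico 1 n, Kf j := by rw [hK']; simp
    rw [e2]; omega
  have hXpos : 0 < X := by
    by_contra h0
    have : X = 0 := by omega
    rw [this] at hx
    simp at hx
    linarith
  have hSx : ((∑ i : Fin n, a * 2 ^ i.val * K i : ℕ) : ℝ) ≤ x := by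
    have e1 : 2 ^ (16 * ∑ i : Fin n, a * 2 ^ i.val * K i) ≤ X := by
      refine le_trans ?_ hsize
      rw [mul_pow]
      calc 2 ^ (16 * ∑ i : Fin n, a * 2 ^ i.val * K i)
          = (2 ^ (2 * ∑ i : Fin n, a * 2 ^ i.val * K i)) ^ 8 := by rw [← pow_mul]; congr 1; ring
        _ ≤ (2 ^ (2 * (a * k₀ + ∑ i ∈ Ico 1 n, a * 2 ^ i * Kf i))) ^ 8 := by
            refine Nat.pow_le_pow_left (Nat.pow_le_pow_right (by norm_num) ?_) _
            exact Nat.mul_le_mul_left _ hSle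
        _ ≤ _ := Nat.le_mul_of_pos_left _ (by positivity)
    have e2 : (16 * ∑ i : Fin n, a * 2 ^ i.val * K i : ℕ) * Real.log 2 ≤ x := by
      rw [← Real.log_pow, hx]
      refine Real.log_le_log (by positivity) ?_
      exact_mod_cast e1
    push_cast at e2 ⊢
    have e3 : (0 : ℝ) ≤ ∑ i : Fin n, (a : ℝ) * 2 ^ i.val * K i := by positivity
    have e4 := Real.log_two_gt_d9
    nlinarith
  -- lower bound of the sums over the scales
  have hLlow : ∀ i : Fin n, c₂ / 2 / ((a * 2 ^ i.val : ℕ) : ℝ) ≤ hs (L i) := by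
    intro i
    have e1 := hs_sdiff (Pb a C₁ i.val) 𝒟 (2 ^ (a * 2 ^ i.val)) (hV1 _) (fun ℓ hℓ => (hPmem _ ℓ hℓ).2)
    have e2 := hPb i.val
    have e3 := hratio i.val
    have hb0 : (0 : ℝ) < ((a * 2 ^ i.val : ℕ) : ℝ) := by exact_mod_cast hb1 i.val
    set b := a * 2 ^ i.val with hbdef
    have e4 : (𝒟.card : ℝ) / (2 ^ b : ℕ) ≤ c₂ / 2 / (b : ℝ) := by
      rw [le_div_iff₀ hb0]
      have e5 : (𝒟.card : ℝ) / (2 ^ b : ℕ) * b = 𝒟.card * ((b : ℝ) / 2 ^ b) := by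
        push_cast; ring
      rw [e5]
      calc (𝒟.card : ℝ) * ((b : ℝ) / 2 ^ b) ≤ CD * (2400 / x ^ 3) := by
            refine mul_le_mul (by exact_mod_cast hDcard) e3 (by positivity) (Nat.cast_nonneg _)
        _ ≤ c₂ / 2 := F.s1
    have e6 : c₂ / (b : ℝ) = c₂ / 2 / b + c₂ / 2 / b := by ring
    have e7 : hs (L i) = hs (Pb a C₁ i.val \ 𝒟) := rfl
    rw [e7]
    linarith
  have hLpos : ∀ i : Fin n, 0 < hs (L i) := fun i => lt_of_lt_of_le (by
    have : (0 : ℝ) < ((a * 2 ^ i.val : ℕ) : ℝ) := by exact_mod_cast hb1 i.val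
    positivity) (hLlow i)
  have hinvL : ∀ i : Fin n, 1 / hs (L i) ≤ 2 / c₂ * ((a * 2 ^ i.val : ℕ) : ℝ) := by
    intro i
    have hb0 : (0 : ℝ) < ((a * 2 ^ i.val : ℕ) : ℝ) := by exact_mod_cast hb1 i.val
    have e1 := hLlow i
    rw [div_le_iff₀ (hLpos i)]
    have e2 : (1 : ℝ) = 2 / c₂ * ((a * 2 ^ i.val : ℕ) : ℝ) * (c₂ / 2 / ((a * 2 ^ i.val : ℕ) : ℝ)) := by
      field_simp
    calc (1 : ℝ) = 2 / c₂ * ((a * 2 ^ i.val : ℕ) : ℝ) * (c₂ / 2 / ((a * 2 ^ i.val : ℕ) : ℝ)) := e2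
      _ ≤ _ := mul_le_mul_of_nonneg_left e1 (by positivity)
  have hsys : Sys L 𝒟 := by
    refine ⟨?_, ?_, ?_, ?_⟩
    · intro i ℓ hℓ
      rw [hL, mem_sdiff] at hℓ
      have := mem_Pb.mp hℓ.1
      exact ⟨this.2.1, by have := this.2.1.two_le; have h8 := (mem_Pb.mp hℓ.1).2.2; omega⟩
    · intro ℓ hℓ
      obtain ⟨h1, h2, _, _⟩ := hDmem ℓ hℓ
      exact ⟨h1, by omega⟩
    · intro i j hij
      refine disjoint_of_subset_left sdiff_subset (disjoint_of_subset_right sdiff_subset ?_)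
      exact Pb_disjoint F.aC (fun h => hij (Fin.ext h))
    · intro i
      exact sdiff_disjoint
  have hsz : ∀ T ∈ Fam L K, (md 𝒟 T) ^ 8 ≤ X := by
    intro T hT
    rw [mem_Fam] at hT
    refine le_trans (Nat.pow_le_pow_left ?_ 8) hsize
    unfold md pr
    refine Nat.mul_le_mul ?_ ?_
    · calc ∏ ℓ ∈ 𝒟, ℓ ≤ ∏ _ℓ ∈ 𝒟, (C₃ * (8 ^ k₀) ^ C₃) :=
            prod_le_prod' fun ℓ hℓ => (hDmem ℓ hℓ).2.2.2
        _ = (C₃ * (8 ^ k₀) ^ C₃) ^ 𝒟.card := by rw [prod_const]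
        _ ≤ _ := Nat.pow_le_pow_right hC3pos hDcard
    · calc ∏ i, ∏ ℓ ∈ T i, ℓ ≤ ∏ i : Fin n, 2 ^ (2 * (a * 2 ^ i.val * K i)) := by
            refine prod_le_prod' fun i _ => ?_
            have := prod_scale_le F.aC (i := i.val) (T := T i) ((hT i).1.trans sdiff_subset)
            rwa [(hT i).2] at this
        _ = 2 ^ (2 * ∑ i : Fin n, a * 2 ^ i.val * K i) := by
            rw [prod_pow_eq_pow_sum, mul_sum]
        _ ≤ _ := Nat.pow_le_pow_right (by norm_num) (Nat.mul_le_mul_left _ hSle)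
  have hEMpos : 0 < EM L K := prod_pos fun i _ => by
    have := hLpos i
    positivity
  have hKsum : (∑ i, (K i : ℝ)) ≤ x := by
    refine le_trans ?_ hk₀x
    have : ∑ i, K i ≤ k₀ := by omega
    exact_mod_cast this
  have hEMle : EM L K / 2 ≤ ∑ T ∈ Fam L K, 1 / (pr T : ℝ) := by
    refine sum_inv_pr_ge L K (fun i => 1 / 2 ^ (a * 2 ^ i.val)) ?_ hLpos (fun i => by positivity) ?_
    · intro i ℓ hℓ
      rw [hL, mem_sdiff] at hℓ
      have h1 := (hPmem i.val ℓ hℓ.1).2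
      have h2 : (2 : ℝ) ^ (a * 2 ^ i.val) ≤ ℓ := by exact_mod_cast h1.le
      exact one_div_le_one_div_of_le (by positivity) h2
    · have e1 : ∀ i ∈ (univ : Finset (Fin n)), (K i : ℝ) ^ 2 * (1 / 2 ^ (a * 2 ^ i.val)) / hs (L i)
          ≤ K i * (x * (2 / c₂) * (2400 / x ^ 3)) := by
        intro i _
        have e2 := hinvL i
        have e3 := hratio i.val
        have e4 : (K i : ℝ) ≤ x := le_trans (by exact_mod_cast hKle i) hk₀x
        set b := a * 2 ^ i.val with hbdef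
        calc (K i : ℝ) ^ 2 * (1 / 2 ^ b) / hs (L i)
            = K i * K i * (1 / 2 ^ b) * (1 / hs (L i)) := by ring
          _ ≤ K i * x * (1 / 2 ^ b) * (2 / c₂ * (b : ℝ)) := by
              refine mul_le_mul ?_ e2 (by have := hLpos i; positivity) (by positivity)
              refine mul_le_mul_of_nonneg_right ?_ (by positivity)
              exact mul_le_mul_of_nonneg_left e4 (Nat.cast_nonneg _)
          _ = K i * (x * (2 / c₂) * ((b : ℝ) / 2 ^ b)) := by ring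
          _ ≤ _ := by
              refine mul_le_mul_of_nonneg_left ?_ (Nat.cast_nonneg _)
              exact mul_le_mul_of_nonneg_left e3 (by positivity)
      refine (sum_le_sum e1).trans ?_
      rw [← sum_mul]
      calc (∑ i, (K i : ℝ)) * (x * (2 / c₂) * (2400 / x ^ 3))
          ≤ x * (x * (2 / c₂) * (2400 / x ^ 3)) := mul_le_mul_of_nonneg_right hKsum (by positivity)
        _ = 4800 / (c₂ * x) := by field_simp; ring
        _ ≤ 1 / 2 := F.s5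
  have hδ : ∑ i, (K i : ℝ) * (3 / (x ^ 3 * hs (L i))) ≤ 1 := by
    have e1 : ∀ i ∈ (univ : Finset (Fin n)), (K i : ℝ) * (3 / (x ^ 3 * hs (L i)))
        ≤ ((a * 2 ^ i.val * K i : ℕ) : ℝ) * (6 / (c₂ * x ^ 3)) := by
      intro i _
      have e2 := hinvL i
      calc (K i : ℝ) * (3 / (x ^ 3 * hs (L i))) = K i * (3 / x ^ 3) * (1 / hs (L i)) := by
            have := (hLpos i).ne'
            field_simp
        _ ≤ K i * (3 / x ^ 3) * (2 / c₂ * ((a * 2 ^ i.val : ℕ) : ℝ)) :=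
            mul_le_mul_of_nonneg_left e2 (by positivity)
        _ = _ := by push_cast; field_simp; ring
    refine (sum_le_sum e1).trans ?_
    rw [← sum_mul]
    have e3 : ∑ i : Fin n, ((a * 2 ^ i.val * K i : ℕ) : ℝ) ≤ x := by
      rw [← Nat.cast_sum]; exact hSx
    calc (∑ i : Fin n, ((a * 2 ^ i.val * K i : ℕ) : ℝ)) * (6 / (c₂ * x ^ 3))
        ≤ x * (6 / (c₂ * x ^ 3)) := mul_le_mul_of_nonneg_right e3 (by positivity)
      _ = 6 / (c₂ * x ^ 2) := by field_simp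
      _ ≤ 1 := F.s4
  have hnormal : ∀ u : ℕ, 1 ≤ u → u ≤ X → (∀ m ∈ Exc X a n C₁, ∀ f : ℕ, 24 * u ≠ m * f ^ 2 + 1) →
      (∀ r : ℕ, a ≤ 2 ^ r → 2 ^ 2 ^ r ≤ X → -2 ≤ cs (PA (2 ^ a) (2 ^ 2 ^ r)) (24 * u - 1)) ∧
      ∀ i, ∑ ℓ ∈ L i, (1 + J ℓ (24 * u - 1)) / ℓ ≤ (1 + 3 / (x ^ 3 * hs (L i))) * hs (L i) := by
    intro u hu huX hno
    obtain ⟨h1, h2⟩ := hnorm' u hu huX hno
    refine ⟨h1, fun i => ?_⟩
    have e1 : ∑ ℓ ∈ L i, (1 + J ℓ (24 * u - 1)) / ℓ = hs (L i) + cs (L i) (24 * u - 1) := by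
      unfold hs cs
      rw [← sum_add_distrib]
      exact sum_congr rfl fun ℓ _ => by rw [add_div]
    have e2 := h2 i.val i.isLt
    have e3 := cs_sdiff (Pb a C₁ i.val) 𝒟 (2 ^ (a * 2 ^ i.val)) (24 * u - 1) (hV1 _)
      (fun ℓ hℓ => (hPmem _ ℓ hℓ).2)
    have e4 : (𝒟.card : ℝ) / (2 ^ (a * 2 ^ i.val) : ℕ) ≤ 1 / x ^ 3 := by
      refine le_trans ?_ F.s3
      have e5 : x ^ 4 ≤ ((2 ^ (a * 2 ^ i.val) : ℕ) : ℝ) := by
        refine F.M.trans ?_
        push_cast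
        exact pow_le_pow_right₀ (by norm_num) (hb _)
      calc (𝒟.card : ℝ) / (2 ^ (a * 2 ^ i.val) : ℕ) ≤ CD / (2 ^ (a * 2 ^ i.val) : ℕ) :=
            div_le_div_of_nonneg_right (by exact_mod_cast hDcard) (Nat.cast_nonneg _)
        _ ≤ CD / x ^ 4 := div_le_div_of_nonneg_left (Nat.cast_nonneg _) (by positivity) e5
    have e6 : (1 + 3 / (x ^ 3 * hs (L i))) * hs (L i) = hs (L i) + 3 / x ^ 3 := by
      have := (hLpos i).ne'
      field_simp
    rw [e1, e6]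
    have e7 : cs (L i) (24 * u - 1) = cs (Pb a C₁ i.val \ 𝒟) (24 * u - 1) := rfl
    rw [e7]
    have e8 := (abs_le.mp e3).2
    have e9 := (abs_le.mp e2).2
    have e10 : cs (P5 (2 ^ (a * 2 ^ i.val)) (C₁ * 2 ^ (a * 2 ^ i.val))) (24 * u - 1)
        = cs (Pb a C₁ i.val) (24 * u - 1) := rfl
    rw [e10] at e9
    have e11 : (3 : ℝ) / x ^ 3 = 2 / x ^ 3 + 1 / x ^ 3 := by ring
    rw [e11]
    linarith
  set A' : ℕ → Finset ℕ := fun i => if i = 0 then (Exc X a n C₁).filter (fun m => m ≤ 8 ^ k₀)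
    else Harm a C₁ k₀ (i - 1) with hA'
  have hsmall : ∀ m ∈ Exc X a n C₁, m ≤ 8 ^ k₀ → (∃ ℓ ∈ 𝒟, J ℓ m = -1) ∨
      ∃ i : Fin n, m ∈ A' i.val ∧ hs ((L i).filter fun ℓ => J ℓ m ≠ -1) ≤ 87 / 100 * hs (L i) := by
    intro m hm hmk
    obtain ⟨hsq, h24, hm1⟩ := mem_Exc hm
    by_cases h : m ∈ Harm a C₁ k₀ (n - 1)
    · left
      refine ⟨Fp m, mem_image_of_mem _ h, ?_⟩
      unfold J
      rw [(hFp m h).2.2.2.1]
      norm_num
    · right
      have hex : ∃ i, i < n ∧ m ∉ Harm a C₁ k₀ i := ⟨n - 1, by omega, h⟩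
      obtain ⟨hin, hiH⟩ := Nat.find_spec hex
      have hmin := fun j (hj : j < Nat.find hex) => Nat.find_min hex hj
      set i := Nat.find hex with hi
      refine ⟨⟨i, hin⟩, ?_, ?_⟩
      · rw [hA']
        simp only
        by_cases h0 : i = 0
        · rw [if_pos h0]; exact mem_filter.mpr ⟨hm, hmk⟩
        · rw [if_neg h0]
          have := hmin (i - 1) (by omega)
          push Not at this
          exact this (by omega)
      · have hnh : |cs (Pb a C₁ i) m| < 7 / 10 * hs (Pb a C₁ i) := by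
          by_contra hge
          push Not at hge
          exact hiH (mem_Harm.mpr ⟨⟨hm1, hmk⟩, hsq, h24, hge⟩)
        have e1 := nonharm (Pb a C₁ i) (2 ^ (a * 2 ^ i)) m (hV1 _) (hPmem i) (by omega)
        have e2 : hs ((L ⟨i, hin⟩).filter fun ℓ => J ℓ m ≠ -1)
            ≤ hs ((Pb a C₁ i).filter fun ℓ => J ℓ m ≠ -1) := by
          unfold hs
          refine sum_le_sum_of_subset_of_nonneg ?_ fun _ _ _ => by positivity
          exact filter_subset_filter _ sdiff_subset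
        have e3 := hs_sdiff (Pb a C₁ i) 𝒟 (2 ^ (a * 2 ^ i)) (hV1 _) (fun ℓ hℓ => (hPmem _ ℓ hℓ).2)
        have e4 := hPb i
        have e5 := hratio i
        have hb0 : (0 : ℝ) < ((a * 2 ^ i : ℕ) : ℝ) := by exact_mod_cast hb1 i
        have e6 : hs (L ⟨i, hin⟩) = hs (Pb a C₁ i \ 𝒟) := rfl
        have e7 : Nat.log 2 m ≤ 3 * k₀ := by
          have : m ≤ 2 ^ (3 * k₀) := by rw [pow_mul]; exact hmk
          exact (Nat.log_mono_right this).trans (by rw [Nat.log_pow (by norm_num)])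
        have e7' : (Nat.log 2 m : ℝ) ≤ 3 * x := by
          have : (Nat.log 2 m : ℝ) ≤ 3 * k₀ := by exact_mod_cast e7
          linarith
        set b := a * 2 ^ i with hbdef
        have e8 : ((Nat.log 2 m : ℝ) + 𝒟.card) / (2 ^ b : ℕ) ≤ 1 / 50 * (c₂ / b) := by
          have e9 : ((Nat.log 2 m : ℝ) + 𝒟.card) * ((b : ℝ) / 2 ^ b) ≤ c₂ / 50 := by
            refine le_trans ?_ F.s2
            refine mul_le_mul ?_ e5 (by positivity) (by positivity)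
            have : (𝒟.card : ℝ) ≤ CD := by exact_mod_cast hDcard
            linarith
          rw [mul_div_assoc', le_div_iff₀ hb0]
          calc ((Nat.log 2 m : ℝ) + 𝒟.card) / (2 ^ b : ℕ) * b
              = ((Nat.log 2 m : ℝ) + 𝒟.card) * ((b : ℝ) / 2 ^ b) := by push_cast; ring
            _ ≤ 1 / 50 * c₂ := by linarith
        have e9 := (abs_lt.mp hnh).2
        have e10 : ((Nat.log 2 m : ℝ) + 𝒟.card) / (2 ^ b : ℕ)
            = (Nat.log 2 m : ℝ) / (2 ^ b : ℕ) + (𝒟.card : ℝ) / (2 ^ b : ℕ) := by rw [add_div]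
        have e11 : (0 : ℝ) ≤ (𝒟.card : ℝ) / (2 ^ b : ℕ) := by positivity
        rw [e10] at e8
        rw [e6]
        linarith
  have hAsum : ∑ i : Fin n, ((A' i.val).card : ℝ) * (87 / 100) ^ K i ≤ ε := by
    have e1 : ∑ i : Fin n, ((A' i.val).card : ℝ) * (87 / 100) ^ K i
        = ((A' 0).card : ℝ) * (87 / 100) ^ K' 0
          + ∑ i ∈ Ico 1 n, ((A' i).card : ℝ) * (87 / 100) ^ K' i :=
      sum_fin n hn1 (fun i => ((A' i).card : ℝ) * (87 / 100) ^ K' i)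
    rw [e1]
    refine le_trans (add_le_add ?_ (sum_le_sum fun i hi => ?_)) (hP2 (K' 0) hK0)
    · refine mul_le_mul_of_nonneg_right ?_ (by positivity)
      have e2 := hexc' (8 ^ k₀)
      have e3 : A' 0 = (Exc X a n C₁).filter (fun m => m ≤ 8 ^ k₀) := by rw [hA']; simp
      rw [e3]
      push_cast at e2
      exact e2
    · rw [hIco i hi]
      rw [mem_Ico] at hi
      refine mul_le_mul_of_nonneg_right ?_ (by positivity)
      have e3 : A' i = Harm a C₁ k₀ (i - 1) := by rw [hA']; simp only; rw [if_neg (by omega)]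
      rw [e3]
      have e4 := hharm (a * 2 ^ (i - 1)) k₀ (Pb a C₁ (i - 1)) (Harm a C₁ k₀ (i - 1)) (hb1 _)
        (hlow (i - 1) (by omega)) (fun ℓ hℓ => by
          rw [mem_Pb] at hℓ; exact ⟨hℓ.2.1, hℓ.1.1, hℓ.1.2⟩) (hPb _) (fun m hm => by
          rw [mem_Harm] at hm
          exact ⟨hm.2.1, Nat.odd_iff.mpr (by omega), by omega, hm.1.2, hm.2.2.2⟩)
      refine e4.trans (le_of_eq ?_)
      rw [hk₀]; push_cast; rfl
  have hlarge : ((N₀ : ℝ) + 1 + ∑ m ∈ (Exc X a n C₁).filter (fun m => 8 ^ k₀ < m), √(24 * X / m)) *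
      (2 ^ (𝒟.card + ∑ i, K i) * (2 * (5 * √X))) ≤ ε * (X / x) := by
    refine le_trans ?_ hP1
    refine mul_le_mul ?_ ?_ (by positivity) (by positivity)
    · refine add_le_add_right ?_ _
      have e1 := sum_sparse (Exc X a n C₁) (x ^ 10) (14 / 1600) (by positivity) (by norm_num)
        (by norm_num) hexc' (8 ^ k₀) (Nat.one_le_pow _ _ (by norm_num))
      have e2 : ∀ m ∈ (Exc X a n C₁).filter (fun m => 8 ^ k₀ < m), √(24 * X / m)
          = √(24 * X) * (1 / √(m : ℝ)) := by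
        intro m _
        rw [Real.sqrt_div (by positivity)]; ring
      rw [sum_congr rfl e2, ← mul_sum]
      refine mul_le_mul_of_nonneg_left ?_ (Real.sqrt_nonneg _)
      push_cast at e1
      exact e1
    · refine mul_le_mul_of_nonneg_right ?_ (by positivity)
      refine pow_le_pow_right₀ (by norm_num) ?_
      omega
  exact ⟨{ a := a, n := n, μ := μ, L := L, K := K, 𝒟 := 𝒟, δ := fun i => 3 / (x ^ 3 * hs (L i)),
           A := fun i => A' i.val, two_le_μ := h2μ, μ_ge := hμge, μ_le := hμle, a_ge := hage,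
           a_le := hale, sys := hsys,
           L_mod := fun i ℓ hℓ => by
             rw [hL, mem_sdiff] at hℓ
             have h1 := mem_Pb.mp hℓ.1
             refine ⟨h1.2.2, lt_of_le_of_lt ?_ h1.1.1⟩
             exact Nat.pow_le_pow_right (by norm_num) (hb _)
           D_mod := fun ℓ hℓ => ⟨(hDmem ℓ hℓ).2.1, (hDmem ℓ hℓ).2.2.1⟩
           D_card := hDcard, card_eq := hcard, size := hsz, EM_pos := hEMpos, EM_le := hEMle,
           δ_nonneg := fun i => by have := hLpos i; positivity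
           δ_sum := hδ, normal := hnormal, small := hsmall, A_sum := hAsum, large := hlarge }⟩

end Pool.Agent.helper7.OC
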