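import Pool.Agent.Lib.SieveInterval
import Pool.Agent.helper7.OC.Defs

/-!
# Project OC (MP_ebc808_nt): counting in the windows after the jumps
-/

set_option autoImplicit false

open Finset

namespace Pool.Agent.helper7.OC

namespace Win

open Pool.Agent.Lib.BrunHooley (card_residues_approx card_modEq_approx)

/-- one window -/
lemma one (t : ℕ) (ht : 1 ≤ t) (𝒟 T : Finset ℕ) (c₀ x H : ℕ)
    (hD : ∀ ℓ ∈ 𝒟, ℓ.Prime ∧ Nat.Coprime (8 * t) ℓ) (hT : ∀ ℓ ∈ T, 0 < ℓ) :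
    (H : ℝ) / (8 * t) * ∏ ℓ ∈ 𝒟, (1 - 1 / (ℓ : ℝ)) - ∏ ℓ ∈ 𝒟, (ℓ : ℝ) - (H * hs T + T.card) ≤
      (((Ioc x (x + H)).filter fun q => q % (8 * t) = c₀ % (8 * t) ∧
        ∀ ℓ ∈ 𝒟 ∪ T, ¬ ℓ ∣ q).card : ℝ) := by
  classical
  have h1 := card_residues_approx x H (fun p => Ico 1 p) 𝒟 (fun p hp => (hD p hp).1)
    (fun p _ c hc => (mem_Ico.1 hc).2) (8 * t) c₀ (by omega) (fun p hp => (hD p hp).2)
  have h2 : ∀ n : ℕ, (∀ p ∈ 𝒟, n % p ∈ Ico 1 p) ↔ ∀ p ∈ 𝒟, ¬ p ∣ n := by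
    intro n
    refine forall₂_congr fun p hp => ?_
    have hp0 := (hD p hp).1.pos
    rw [mem_Ico, Nat.dvd_iff_mod_eq_zero]
    have := Nat.mod_lt n hp0
    omega
  simp only [h2] at h1
  set N₁ := (((Ioc x (x + H)).filter fun n => n ≡ c₀ [MOD 8 * t] ∧ ∀ p ∈ 𝒟, ¬ p ∣ n).card : ℝ)
    with hN₁
  have h3 : ∏ p ∈ 𝒟, (((Ico 1 p).card : ℝ) / p) = ∏ ℓ ∈ 𝒟, (1 - 1 / (ℓ : ℝ)) := by
    refine prod_congr rfl fun p hp => ?_
    have hp0 := (hD p hp).1.pos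
    have hp' : (p : ℝ) ≠ 0 := by exact_mod_cast hp0.ne'
    rw [Nat.card_Ico, Nat.cast_sub hp0]
    field_simp
    simp
  have h4 : ∏ p ∈ 𝒟, ((Ico 1 p).card : ℝ) ≤ ∏ ℓ ∈ 𝒟, (ℓ : ℝ) := by
    refine prod_le_prod (fun _ _ => Nat.cast_nonneg _) fun p _ => ?_
    rw [Nat.card_Ico]
    exact_mod_cast Nat.sub_le _ _
  rw [h3] at h1
  have h5 : (H : ℝ) / (8 * t) * ∏ ℓ ∈ 𝒟, (1 - 1 / (ℓ : ℝ)) - ∏ ℓ ∈ 𝒟, (ℓ : ℝ) ≤ N₁ := by
    have := (abs_le.1 h1).1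
    push_cast at this
    linarith
  -- the multiples of the primes of `T`
  have h6 : N₁ ≤ (((Ioc x (x + H)).filter fun q => q % (8 * t) = c₀ % (8 * t) ∧
      ∀ ℓ ∈ 𝒟 ∪ T, ¬ ℓ ∣ q).card : ℝ) +
      ∑ ℓ ∈ T, (((Ioc x (x + H)).filter fun q => q ≡ 0 [MOD ℓ]).card : ℝ) := by
    have hsub : ((Ioc x (x + H)).filter fun n => n ≡ c₀ [MOD 8 * t] ∧ ∀ p ∈ 𝒟, ¬ p ∣ n) ⊆
        ((Ioc x (x + H)).filter fun q => q % (8 * t) = c₀ % (8 * t) ∧ ∀ ℓ ∈ 𝒟 ∪ T, ¬ ℓ ∣ q) ∪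
        T.biUnion fun ℓ => (Ioc x (x + H)).filter fun q => q ≡ 0 [MOD ℓ] := by
      intro n hn
      rw [mem_filter] at hn
      by_cases hT' : ∃ ℓ ∈ T, ℓ ∣ n
      · obtain ⟨ℓ, hℓ, hd⟩ := hT'
        refine mem_union_right _ (mem_biUnion.2 ⟨ℓ, hℓ, mem_filter.2 ⟨hn.1, ?_⟩⟩)
        exact Nat.modEq_zero_iff_dvd.2 hd
      · push Not at hT'
        refine mem_union_left _ (mem_filter.2 ⟨hn.1, hn.2.1, fun ℓ hℓ => ?_⟩)
        rcases mem_union.1 hℓ with h | h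
        · exact hn.2.2 ℓ h
        · exact hT' ℓ h
    have := (card_le_card hsub).trans ((card_union_le _ _).trans
      (Nat.add_le_add le_rfl card_biUnion_le))
    rw [hN₁]
    exact_mod_cast this
  have h7 : ∑ ℓ ∈ T, (((Ioc x (x + H)).filter fun q => q ≡ 0 [MOD ℓ]).card : ℝ) ≤
      H * hs T + T.card := by
    unfold hs
    rw [mul_sum, card_eq_sum_ones, Nat.cast_sum, ← sum_add_distrib]
    refine sum_le_sum fun ℓ hℓ => ?_
    have := (abs_le.1 (card_modEq_approx x H ℓ 0 (hT ℓ hℓ))).2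
    rw [mul_one_div]
    push_cast
    linarith
  linarith

lemma aux1 {y v G B : ℝ} (hv : 1.05 * y ≤ v) (hy : 0 ≤ y) (hG : 0 < G) (h : y ^ 2 * G = 3 * B)
    (h4 : 100 ≤ B) : 3 * B < (v + 1) ^ 2 * G - 1 := by
  have h1 : (1.05 * y) ^ 2 ≤ (v + 1) ^ 2 := by
    apply pow_le_pow_left₀ (by positivity); linarith
  have h2 : (1.05 * y) ^ 2 * G ≤ (v + 1) ^ 2 * G := mul_le_mul_of_nonneg_right h1 hG.le
  have h3 : (1.05 * y) ^ 2 * G = 1.1025 * (3 * B) := by rw [← h]; ring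
  linarith

lemma aux2 {y v G B : ℝ} (hv : v ≤ 1.35 * y) (hv0 : 0 ≤ v) (hy : 24000 ≤ y) (hG : 0 < G)
    (h : y ^ 2 * G = 3 * B) (h4 : 100 ≤ B) : (v + 5) ^ 2 * G - 1 ≤ 6 * B := by
  have h1 : (v + 5) ^ 2 ≤ (1.36 * y) ^ 2 := by
    apply pow_le_pow_left₀ (by linarith); linarith
  have h2 : (v + 5) ^ 2 * G ≤ (1.36 * y) ^ 2 * G := mul_le_mul_of_nonneg_right h1 hG.le
  have h3 : (1.36 * y) ^ 2 * G = 1.8496 * (3 * B) := by rw [← h]; ring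
  linarith

lemma aux3 {y v G A : ℝ} (hv : 1.05 * y ≤ v) (hG : 0 < G) (hA : 0 < A) :
    ((v + 1) ^ 2 * G - 1) / (3 * A) + 2.8 * (y * G / A) ≤ ((v + 5) ^ 2 * G - 1) / (3 * A) := by
  have h1 : ((v + 5) ^ 2 * G - 1) / (3 * A) - ((v + 1) ^ 2 * G - 1) / (3 * A) =
      8 * (v + 3) * (G / A) / 3 := by
    field_simp; ring
  have h3 : y * G / A = y * (G / A) := by ring
  have h4 : 0 < G / A := by positivity
  have h5 : 1.05 * y * (G / A) ≤ v * (G / A) := mul_le_mul_of_nonneg_right hv h4.le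
  rw [h3]
  linarith

lemma aux4 {P U t E : ℝ} (ht : 1 ≤ t) (hE : 0 ≤ E) (hP : 0 < P) (hP1 : P ≤ 1)
    (hU : 0 < U) (h : 435 * t * (E + 1) ≤ P * U) : 435 ≤ U ∧ E ≤ P * U / (435 * t) := by
  constructor
  · have h1 : P * U ≤ 1 * U := mul_le_mul_of_nonneg_right hP1 hU.le
    have h2 : 1 * 1 ≤ t * (E + 1) := mul_le_mul ht (by linarith) (by norm_num) (by linarith)
    linarith
  · rw [le_div_iff₀ (by linarith)]
    have : E * (435 * t) = 435 * t * (E + 1) - 435 * t := by ring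
    linarith

lemma aux5 {P U t E H h : ℝ} (ht : 1 ≤ t) (hP : 0 < P) (hU : 0 < U) (hH : 2.79 * U ≤ H)
    (hh : h ≤ P / (64 * t)) (hE : E ≤ P * U / (435 * t)) :
    0.28 * (P / t) * U ≤ H / (8 * t) * P - H * h - E := by
  have hH0 : 0 ≤ H := by linarith
  have h1 : H * h ≤ H * (P / (64 * t)) := mul_le_mul_of_nonneg_left hh hH0
  have h2 : H / (8 * t) * P - H * (P / (64 * t)) = H * (7 / 64 * (P / t)) := by
    field_simp; ring
  have hPt : 0 < P / t := by positivity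
  have h3 : 2.79 * U * (7 / 64 * (P / t)) ≤ H * (7 / 64 * (P / t)) := by gcongr
  have h4 : P * U / (435 * t) = 1 / 435 * (P / t * U) := by field_simp
  have h6 : 0 ≤ P / t * U := by positivity
  rw [h4] at hE
  have h7 : 2.79 * U * (7 / 64 * (P / t)) = (2.79 * 7 / 64) * (P / t * U) := by ring
  have h8 : 0.28 * (P / t) * U = 0.28 * (P / t * U) := by ring
  rw [h8]
  rw [h7] at h3
  linarith

lemma aux6 {P Q t y G A z : ℝ} (ht : 0 < t) (hA : 0 < A) (hP : 0 < P) (hQ : 0 < Q)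
    (hz : z = y / (24 * t)) (h : y ^ 2 * G = 3 * A * Q) :
    P * Q / (400 * t ^ 2) ≤ (0.29 * z) * (0.28 * (P / t) * (y * G / A)) := by
  have h1 : (0.29 * z) * (0.28 * (P / t) * (y * G / A)) = 0.0812 * (P / t) *
      ((y ^ 2 * G) / (24 * t * A)) := by rw [hz]; ring
  have h2 : 0.0812 * (P / t) * (3 * A * Q / (24 * t * A)) = 0.01015 * (P * Q / t ^ 2) := by
    field_simp; ring
  rw [h1, h, h2]
  have h3 : P * Q / (400 * t ^ 2) = 0.0025 * (P * Q / t ^ 2) := by field_simp; norm_num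
  rw [h3]
  have : 0 < P * Q / t ^ 2 := by positivity
  linarith

lemma aux7 {P U t E : ℝ} (ht : 0 < t) (hE : 0 ≤ E) (hP : 0 < P)
    (h : 256 * t * (E + 1) / P * √3 ≤ U) : 435 * t * (E + 1) ≤ P * U := by
  have hs3 : (1.7 : ℝ) ≤ √3 := Real.le_sqrt_of_sq_le (by norm_num)
  have h1 : 256 * t * (E + 1) / P * 1.7 ≤ U := le_trans (by gcongr) h
  have h2 : 256 * t * (E + 1) / P * 1.7 = 435.2 * (t * (E + 1)) / P := by ring
  rw [h2, div_le_iff₀ hP] at h1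
  have h3 : 0 ≤ t * (E + 1) := by positivity
  linarith

end Win

open Classical in
/-- The number of multipliers `q` in `(Q, 2 Q]` in a residue class, prime to the given primes, which
are right behind a jump. -/
theorem windows (t : ℕ) (ht : 1 ≤ t) (𝒟 T : Finset ℕ) (G A Q c₀ : ℕ) (hG : 1 ≤ G) (hA : 1 ≤ A)
    (hQ : 100 ≤ Q) (hD : ∀ ℓ ∈ 𝒟, ℓ.Prime ∧ Nat.Coprime (8 * t) ℓ) (hT : ∀ ℓ ∈ T, 0 < ℓ)
    (P : ℝ) (hP : P = ∏ ℓ ∈ 𝒟, (1 - 1 / (ℓ : ℝ))) (hTs : hs T ≤ P / (64 * t))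
    (hsize : (256 * t * ((∏ ℓ ∈ 𝒟, (ℓ : ℝ)) + T.card + 1) / P) ^ 2 * A ≤ Q * G)
    (hnum : (24000 * t : ℝ) ^ 2 * G ≤ 3 * A * Q) :
    P * Q / (400 * t ^ 2) ≤ (((Ioc Q (2 * Q)).filter fun q => q % (8 * t) = c₀ % (8 * t) ∧
      (∀ ℓ ∈ 𝒟 ∪ T, ¬ ℓ ∣ q) ∧ ∃ i : ℕ, (24 * t * i + 1) ^ 2 * G ≤ 3 * (A * q) + 1 ∧
        3 * (A * q) + 1 < (24 * t * i + 5) ^ 2 * G).card : ℝ) := by
  classical
  have htr : (1 : ℝ) ≤ t := by exact_mod_cast ht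
  have ht0 : (0 : ℝ) < t := by linarith
  have hG0 : (0 : ℝ) < G := by exact_mod_cast hG
  have hA0 : (0 : ℝ) < A := by exact_mod_cast hA
  have hA1 : (1 : ℝ) ≤ A := by exact_mod_cast hA
  have hQr : (100 : ℝ) ≤ Q := by exact_mod_cast hQ
  have hQ0 : (0 : ℝ) < Q := by linarith
  have hP0 : 0 < P := by
    rw [hP]
    refine prod_pos fun ℓ hℓ => ?_
    have : (2 : ℝ) ≤ ℓ := by exact_mod_cast (hD ℓ hℓ).1.two_le
    rw [sub_pos, div_lt_one (by linarith)]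
    linarith
  have hP1 : P ≤ 1 := by
    rw [hP]
    refine prod_le_one (fun ℓ hℓ => ?_) fun ℓ hℓ => ?_
    · have : (2 : ℝ) ≤ ℓ := by exact_mod_cast (hD ℓ hℓ).1.two_le
      rw [sub_nonneg, div_le_one (by linarith)]
      linarith
    · have : (0 : ℝ) ≤ 1 / (ℓ : ℝ) := by positivity
      linarith
  set E : ℝ := (∏ ℓ ∈ 𝒟, (ℓ : ℝ)) + T.card with hE
  have hE0 : 0 ≤ E := by
    rw [hE]
    have : (0 : ℝ) ≤ ∏ ℓ ∈ 𝒟, (ℓ : ℝ) := prod_nonneg fun _ _ => Nat.cast_nonneg _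
    positivity
  set y : ℝ := √(3 * A * Q / G) with hy
  have hy2 : y ^ 2 = 3 * A * Q / G := Real.sq_sqrt (by positivity)
  have hy2' : y ^ 2 * G = 3 * A * Q := by rw [hy2]; field_simp
  have hy0 : 0 ≤ y := Real.sqrt_nonneg _
  have hyt : 24000 * t ≤ y := by
    rw [hy]
    apply Real.le_sqrt_of_sq_le
    rw [le_div_iff₀ hG0]
    exact hnum
  have hy1 : 24000 ≤ y := by linarith
  have hypos : 0 < y := by linarith
  -- the length of the windows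
  have hlen : 256 * t * (E + 1) / P * √3 ≤ y * G / A := by
    have h1 : (256 * t * (E + 1) / P * √3) ^ 2 ≤ (y * G / A) ^ 2 := by
      have h3 : (256 * t * (E + 1) / P) ^ 2 ≤ Q * G / A := by
        rw [le_div_iff₀ hA0]
        exact hsize
      have h2 : (y * G / A) ^ 2 = Q * G / A * 3 := by
        rw [div_pow, mul_pow, hy2]; field_simp
      rw [mul_pow _ (√3), Real.sq_sqrt (by norm_num), h2]
      linarith
    exact abs_le_of_sq_le_sq' h1 (by positivity) |>.2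
  set U : ℝ := y * G / A with hU
  have hU0 : 0 < U := by positivity
  have hU1 : 435 * t * (E + 1) ≤ P * U := Win.aux7 ht0 hE0 hP0 hlen
  obtain ⟨hU435, hEU⟩ := Win.aux4 htr hE0 hP0 hP1 hU0 hU1
  have hAQ : 100 ≤ (A : ℝ) * Q := by
    calc (100 : ℝ) = 1 * 100 := by norm_num
      _ ≤ A * Q := mul_le_mul hA1 hQr (by norm_num) hA0.le
  have hyB : y ^ 2 * G = 3 * (A * Q) := by rw [hy2']; ring
  -- the indices
  set z : ℝ := y / (24 * t) with hz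
  have hz1 : 24 * t * z = y := by rw [hz]; field_simp
  have hz7 : 1000 ≤ z := by
    rw [hz, le_div_iff₀ (by positivity)]; linarith
  set S : Finset ℕ := Finset.Ico ⌈1.05 * z⌉₊ ⌊1.35 * z⌋₊ with hS
  have hSmem : ∀ i ∈ S, 1.05 * y ≤ 24 * t * i ∧ (24 * t * i : ℝ) ≤ 1.35 * y := by
    intro i hi
    rw [hS, mem_Ico] at hi
    have h1 : 1.05 * z ≤ i := Nat.ceil_le.1 hi.1
    have h2 : (i : ℝ) ≤ 1.35 * z := by
      refine le_trans ?_ (Nat.floor_le (by positivity))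
      exact_mod_cast hi.2.le
    have h24 : (0 : ℝ) < 24 * t := by linarith
    have h3 : 24 * t * (1.05 * z) ≤ 24 * t * i := mul_le_mul_of_nonneg_left h1 h24.le
    have h4 : 24 * t * i ≤ 24 * t * (1.35 * z) := mul_le_mul_of_nonneg_left h2 h24.le
    have h5 : 24 * t * (1.05 * z) = 1.05 * y := by rw [← hz1]; ring
    have h6 : 24 * t * (1.35 * z) = 1.35 * y := by rw [← hz1]; ring
    rw [h5] at h3
    rw [h6] at h4
    exact ⟨h3, h4⟩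
  have hScard : 0.29 * z ≤ S.card := by
    rw [hS, Nat.card_Ico]
    have h3 : 1.35 * z - 1 ≤ ⌊1.35 * z⌋₊ := by
      have := Nat.lt_floor_add_one (1.35 * z); linarith
    have h4 : (⌈1.05 * z⌉₊ : ℝ) ≤ 1.05 * z + 1 := (Nat.ceil_lt_add_one (by positivity)).le
    have h6 : (⌊1.35 * z⌋₊ : ℝ) - ⌈1.05 * z⌉₊ ≤ ((⌊1.35 * z⌋₊ - ⌈1.05 * z⌉₊ : ℕ) : ℝ) := by
      have : ⌊1.35 * z⌋₊ ≤ (⌊1.35 * z⌋₊ - ⌈1.05 * z⌉₊) + ⌈1.05 * z⌉₊ := by omega
      have h7 : (⌊1.35 * z⌋₊ : ℝ) ≤ ((⌊1.35 * z⌋₊ - ⌈1.05 * z⌉₊ : ℕ) : ℝ) + ⌈1.05 * z⌉₊ := by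
        exact_mod_cast this
      linarith
    linarith
  -- one window
  set W : ℕ → Finset ℕ := fun i => (Ioc Q (2 * Q)).filter fun q => q % (8 * t) = c₀ % (8 * t) ∧
      (∀ ℓ ∈ 𝒟 ∪ T, ¬ ℓ ∣ q) ∧ (24 * t * i + 1) ^ 2 * G ≤ 3 * (A * q) + 1 ∧
        3 * (A * q) + 1 < (24 * t * i + 5) ^ 2 * G with hW
  have hWcard : ∀ i ∈ S, 0.28 * (P / t) * U ≤ (W i).card := by
    intro i hi
    obtain ⟨hi1, hi2⟩ := hSmem i hi
    set v : ℝ := 24 * t * i with hv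
    set α : ℝ := ((v + 1) ^ 2 * G - 1) / (3 * A) with hα
    set β : ℝ := ((v + 5) ^ 2 * G - 1) / (3 * A) with hβ
    have hαQ : (Q : ℝ) < α := by
      rw [hα, lt_div_iff₀ (by positivity)]
      have := Win.aux1 hi1 hy0 hG0 hyB hAQ
      calc (Q : ℝ) * (3 * A) = 3 * (A * Q) := by ring
        _ < _ := this
    have hv0 : 0 ≤ v := by positivity
    have hβQ : β ≤ 2 * Q := by
      rw [hβ, div_le_iff₀ (by positivity)]
      have := Win.aux2 hi2 hv0 hy1 hG0 hyB hAQ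
      calc _ ≤ 6 * ((A : ℝ) * Q) := this
        _ = _ := by ring
    have hαβ : α + 2.8 * U ≤ β := Win.aux3 hi1 hG0 hA0
    have hα0 : 0 < α := hQ0.trans hαQ
    set x : ℕ := ⌈α⌉₊ - 1 with hx
    set H : ℕ := ⌈β⌉₊ - ⌈α⌉₊ with hH
    have hcα : 1 ≤ ⌈α⌉₊ := Nat.one_le_ceil_iff.2 hα0
    have hcαβ : ⌈α⌉₊ ≤ ⌈β⌉₊ := Nat.ceil_mono (by linarith)
    have hHlow : 2.79 * U ≤ H := by
      have h1 : (⌈α⌉₊ : ℝ) ≤ α + 1 := (Nat.ceil_lt_add_one hα0.le).le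
      have h2 : β ≤ ⌈β⌉₊ := Nat.le_ceil _
      have h3 : (H : ℝ) = ⌈β⌉₊ - ⌈α⌉₊ := by rw [hH, Nat.cast_sub hcαβ]
      rw [h3]
      linarith
    have hsub : ((Ioc x (x + H)).filter fun q => q % (8 * t) = c₀ % (8 * t) ∧
        ∀ ℓ ∈ 𝒟 ∪ T, ¬ ℓ ∣ q) ⊆ W i := by
      intro q hq
      rw [mem_filter, mem_Ioc] at hq
      obtain ⟨⟨hq1, hq2⟩, hq3, hq4⟩ := hq
      have h1 : ⌈α⌉₊ ≤ q := by omega
      have h2 : q < ⌈β⌉₊ := by omega
      have h3 : α ≤ q := Nat.ceil_le.1 h1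
      have h4 : (q : ℝ) < β := Nat.lt_ceil.1 h2
      rw [hW]
      simp only [mem_filter, mem_Ioc]
      refine ⟨⟨?_, ?_⟩, hq3, hq4, ?_, ?_⟩
      · have : (Q : ℝ) < q := lt_of_lt_of_le hαQ h3
        exact_mod_cast this
      · have : (q : ℝ) ≤ ((2 * Q : ℕ) : ℝ) := by push_cast; linarith
        exact_mod_cast this
      · rw [hα, div_le_iff₀ (by positivity)] at h3
        have : (((24 * t * i + 1) ^ 2 * G : ℕ) : ℝ) ≤ ((3 * (A * q) + 1 : ℕ) : ℝ) := by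
          push_cast
          rw [← hv]
          linarith
        exact_mod_cast this
      · rw [hβ, lt_div_iff₀ (by positivity)] at h4
        have : ((3 * (A * q) + 1 : ℕ) : ℝ) < (((24 * t * i + 5) ^ 2 * G : ℕ) : ℝ) := by
          push_cast
          rw [← hv]
          linarith
        exact_mod_cast this
    have hone := Win.one t ht 𝒟 T c₀ x H hD hT
    rw [← hP] at hone
    have hle : (((Ioc x (x + H)).filter fun q => q % (8 * t) = c₀ % (8 * t) ∧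
        ∀ ℓ ∈ 𝒟 ∪ T, ¬ ℓ ∣ q).card : ℝ) ≤ (W i).card := by exact_mod_cast card_le_card hsub
    have h5 := Win.aux5 htr hP0 hU0 hHlow hTs hEU
    linarith
  -- disjointness
  have hdisj : ∀ i ∈ S, ∀ j ∈ S, i ≠ j → Disjoint (W i) (W j) := by
    have key : ∀ i j : ℕ, i < j → Disjoint (W i) (W j) := by
      intro i j hij
      rw [disjoint_left]
      intro q h1 h2
      rw [hW] at h1 h2
      simp only [mem_filter] at h1 h2
      have h3 := h1.2.2.2.2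
      have h4 := h2.2.2.2.1
      have h5 : 24 * t * i + 5 ≤ 24 * t * j + 1 := by
        have : t * (i + 1) ≤ t * j := Nat.mul_le_mul_left _ hij
        nlinarith
      have h6 : (24 * t * i + 5) ^ 2 * G ≤ (24 * t * j + 1) ^ 2 * G :=
        Nat.mul_le_mul_right _ (Nat.pow_le_pow_left h5 2)
      omega
    intro i _ j _ hij
    rcases Nat.lt_or_gt_of_ne hij with h | h
    · exact key i j h
    · exact (key j i h).symm
  have hsub : S.biUnion W ⊆ (Ioc Q (2 * Q)).filter fun q => q % (8 * t) = c₀ % (8 * t) ∧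
      (∀ ℓ ∈ 𝒟 ∪ T, ¬ ℓ ∣ q) ∧ ∃ i : ℕ, (24 * t * i + 1) ^ 2 * G ≤ 3 * (A * q) + 1 ∧
        3 * (A * q) + 1 < (24 * t * i + 5) ^ 2 * G := by
    intro q hq
    rw [mem_biUnion] at hq
    obtain ⟨i, _, hi⟩ := hq
    rw [hW] at hi
    simp only [mem_filter] at hi
    exact mem_filter.2 ⟨hi.1, hi.2.1, hi.2.2.1, i, hi.2.2.2⟩
  have hcard := card_le_card hsub
  rw [card_biUnion hdisj] at hcard
  have hcard' : ∑ i ∈ S, ((W i).card : ℝ) ≤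
      (((Ioc Q (2 * Q)).filter fun q => q % (8 * t) = c₀ % (8 * t) ∧
      (∀ ℓ ∈ 𝒟 ∪ T, ¬ ℓ ∣ q) ∧ ∃ i : ℕ, (24 * t * i + 1) ^ 2 * G ≤ 3 * (A * q) + 1 ∧
        3 * (A * q) + 1 < (24 * t * i + 5) ^ 2 * G).card : ℝ) := by exact_mod_cast hcard
  refine le_trans ?_ hcard'
  calc P * Q / (400 * t ^ 2) ≤ (0.29 * z) * (0.28 * (P / t) * U) :=
        Win.aux6 ht0 hA0 hP0 hQ0 hz hy2'
    _ ≤ S.card * (0.28 * (P / t) * U) := by gcongr
    _ = ∑ i ∈ S, 0.28 * (P / t) * U := by rw [sum_const, nsmul_eq_mul]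
    _ ≤ ∑ i ∈ S, ((W i).card : ℝ) := sum_le_sum hWcard

end Pool.Agent.helper7.OC
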