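import Pool.Agent.helper7.OC.C13
import Pool.Agent.helper29.OC.Win
import Pool.Agent.helper29.OC.CoverGen
import Pool.Agent.helper29.OC.Setup2

/-!
# Project OC (MP_ebc808_nt): values of `p(n)` different from a periodic sequence
-/

set_option autoImplicit false

open Finset
open Pool.Agent.Lib.BrunHooley (Z)

namespace Pool.Agent.helper7.OC

/-- `Q` for the modulus `m`. -/
lemma Gen_Q (X m : ℕ) (hm : 1 ≤ m) (h : m ^ 8 ≤ X) (hX : 2 ^ 16 ≤ X) :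
    100 ≤ 4 * X / m ∧ 2 * (X : ℝ) / m ≤ ((4 * X / m : ℕ) : ℝ) ∧ ((4 * X / m : ℕ) : ℝ) ≤ 4 * X / m ∧
    m * (2 * (4 * X / m)) ≤ 8 * X := by
  obtain ⟨h1, h2, h3, h4⟩ := div_facts X m hm h hX
  have e : 8 * X / m / 2 = 4 * X / m := by
    rw [Nat.div_div_eq_div_mul, mul_comm m 2, show 8 * X = 2 * (4 * X) by ring,
      Nat.mul_div_mul_left _ _ (by norm_num)]
  rw [e] at h1 h3
  refine ⟨?_, h3, ?_, ?_⟩
  · refine le_trans ?_ h1
    rw [Nat.le_sqrt']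
    exact le_trans (by norm_num) hX
  · have : ((4 * X / m : ℕ) : ℝ) ≤ ((4 * X : ℕ) : ℝ) / (m : ℝ) := Nat.cast_div_le
    push_cast at this
    exact this
  · have := Nat.mul_div_le (4 * X) m
    calc m * (2 * (4 * X / m)) = 2 * (m * (4 * X / m)) := by ring
      _ ≤ 2 * (4 * X) := Nat.mul_le_mul_left _ this
      _ = 8 * X := by ring

/-- the size conditions of `windows`. -/
lemma Gen_size {X m μ t K D : ℕ} {P C x : ℝ} (hm : 1 ≤ m) (h : m ^ 8 ≤ X) (hX : 2 ^ 16 ≤ X)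
    (hx1 : 1 ≤ x) (hμ : (2 : ℝ) ^ μ ≤ x) (hK : K + 1 ≤ 2 ^ μ) (hD : D ≤ m)
    (hD1 : 1 ≤ D)
    (ht : 1 ≤ t) (hP : 0 < P) (hC : C = 512 * t / P) (h4 : C ^ 4 * x ^ 4 ≤ X)
    (h5 : (24000 * t : ℝ) ^ 2 * x ^ 2 ≤ X) :
    (256 * t * ((D : ℝ) + K + 1) / P) ^ 2 * m ≤ ((4 * X / m : ℕ) : ℝ) * ((4 ^ μ : ℕ) : ℝ) ∧
    (24000 * t : ℝ) ^ 2 * ((4 ^ μ : ℕ) : ℝ) ≤ 3 * m * ((4 * X / m : ℕ) : ℝ) := by
  obtain ⟨q1, q2, q3, q4⟩ := Gen_Q X m hm h hX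
  set Q : ℝ := ((4 * X / m : ℕ) : ℝ) with hQ
  have hm0 : (0 : ℝ) < m := by exact_mod_cast hm
  have hm1 : (1 : ℝ) ≤ m := by exact_mod_cast hm
  have ht0 : (0 : ℝ) < t := by exact_mod_cast ht
  have hX0 : (0 : ℝ) < X := by
    have : 0 < X := lt_of_lt_of_le (by norm_num) hX
    exact_mod_cast this
  have hmX : (m : ℝ) ^ 8 ≤ X := by exact_mod_cast h
  have h4μ : ((4 ^ μ : ℕ) : ℝ) = (2 ^ μ) ^ 2 := by
    push_cast
    rw [← pow_mul, mul_comm μ 2, pow_mul]; norm_num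
  have h4μ1 : (1 : ℝ) ≤ ((4 ^ μ : ℕ) : ℝ) := by exact_mod_cast Nat.one_le_pow _ _ (by norm_num)
  have h4μ2 : ((4 ^ μ : ℕ) : ℝ) ≤ x ^ 2 := by
    rw [h4μ]; exact pow_le_pow_left₀ (by positivity) hμ 2
  have hmQ : 2 * X ≤ m * Q := by
    rw [div_le_iff₀ hm0] at q2
    linarith
  constructor
  · have hsum : (D : ℝ) + K + 1 ≤ 2 * (m * x) := by
      have h1 : (D : ℝ) ≤ m := by exact_mod_cast hD
      have h2 : (K : ℝ) + 1 ≤ 2 ^ μ := by exact_mod_cast hK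
      have h3 : (m : ℝ) ≤ m * x := le_mul_of_one_le_right hm0.le hx1
      have h6 : x ≤ m * x := le_mul_of_one_le_left (by linarith) hm1
      linarith
    have h6 : 256 * t * ((D : ℝ) + K + 1) / P ≤ C * (m * x) := by
      calc 256 * t * ((D : ℝ) + K + 1) / P ≤ 256 * t * (2 * (m * x)) / P := by gcongr
        _ = C * (m * x) := by rw [hC]; ring
    have hC0 : 0 < C := by rw [hC]; positivity
    have h7 : (256 * t * ((D : ℝ) + K + 1) / P) ^ 2 ≤ (C * (m * x)) ^ 2 :=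
      pow_le_pow_left₀ (by positivity) h6 2
    have h8 : (C * (m * x)) ^ 2 * m * m ≤ X := by
      have h9 : ((C * (m * x)) ^ 2 * m * m) ^ 2 ≤ (X : ℝ) ^ 2 := by
        calc ((C * (m * x)) ^ 2 * m * m) ^ 2 = (C ^ 4 * x ^ 4) * m ^ 8 := by ring
          _ ≤ (X : ℝ) * X := mul_le_mul h4 hmX (by positivity) hX0.le
          _ = (X : ℝ) ^ 2 := by ring
      exact (pow_le_pow_iff_left₀ (by positivity) hX0.le (by norm_num)).1 h9
    have h10 : (C * (m * x)) ^ 2 * m ≤ Q := by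
      have : (C * (m * x)) ^ 2 * m * m ≤ Q * m := by linarith
      exact le_of_mul_le_mul_right this hm0
    calc (256 * t * ((D : ℝ) + K + 1) / P) ^ 2 * m ≤ (C * (m * x)) ^ 2 * m := by gcongr
      _ ≤ Q := h10
      _ ≤ Q * ((4 ^ μ : ℕ) : ℝ) := le_mul_of_one_le_right (by positivity) h4μ1
  · calc (24000 * t : ℝ) ^ 2 * ((4 ^ μ : ℕ) : ℝ) ≤ (24000 * t : ℝ) ^ 2 * x ^ 2 := by gcongr
      _ ≤ (X : ℝ) := h5
      _ ≤ 3 * m * Q := by linarith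


section
variable {X t s N₀ CD C₁ : ℕ} {c₀ ε : ℝ} (d : Data X t s N₀ CD C₁ c₀ ε)

/-- the forced primes cost a constant factor -/
lemma Data.prodD_ge : (4 / 5 : ℝ) ^ CD ≤ ∏ ℓ ∈ d.𝒟, (1 - 1 / (ℓ : ℝ)) := by
  calc (4 / 5 : ℝ) ^ CD ≤ (4 / 5 : ℝ) ^ d.𝒟.card :=
        pow_le_pow_of_le_one (by norm_num) (by norm_num) d.D_card
    _ = ∏ _ℓ ∈ d.𝒟, (4 / 5 : ℝ) := by rw [prod_const]
    _ ≤ _ := by
        refine prod_le_prod (fun _ _ => by norm_num) fun ℓ hℓ => ?_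
        have h1 := d.sys.primeD ℓ hℓ
        have h2 := (d.D_mod ℓ hℓ).1
        have h3 : (5 : ℝ) ≤ ℓ := by exact_mod_cast (by omega : 5 ≤ ℓ)
        have h4 : 1 / (ℓ : ℝ) ≤ 1 / 5 := one_div_le_one_div_of_le (by norm_num) h3
        linarith

lemma Data.hs_T_le (hX : 1 ≤ Real.log X) {T : Fin d.n → Finset ℕ} (hT : T ∈ Fam d.L d.K) :
    hs (univ.biUnion T) ≤ 1 / Real.log X ∧ (univ.biUnion T).card + s ≤ 2 ^ (d.μ - 1) := by
  have h1 : ∀ ℓ ∈ univ.biUnion T, 1 / (ℓ : ℝ) ≤ 1 / 2 ^ d.a := by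
    intro ℓ hℓ
    rw [mem_biUnion] at hℓ
    obtain ⟨i, _, hi⟩ := hℓ
    have h2 := (d.L_mod i ℓ (((mem_Fam _ _ _).mp hT i).1 hi)).2
    refine one_div_le_one_div_of_le (by positivity) ?_
    exact_mod_cast h2.le
  have h4 := card_biUnion_T hT
  have h5 := d.card_eq
  have h6 : 2 ^ (d.μ - 1) ≤ 2 ^ d.μ := Nat.pow_le_pow_right (by norm_num) (by omega)
  refine ⟨?_, by omega⟩
  unfold hs
  refine (sum_le_sum h1).trans ?_
  rw [sum_const, nsmul_eq_mul]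
  have h3 : ((univ.biUnion T).card : ℝ) ≤ 2 ^ d.μ := by
    have h7 : (univ.biUnion T).card ≤ 2 ^ d.μ := by omega
    exact_mod_cast h7
  have h8 : Real.log X ^ 2 ≤ 2 ^ d.a := by
    refine le_trans ?_ d.a_ge
    calc Real.log X ^ 2 = Real.log X ^ (2 : ℝ) := by norm_num
      _ ≤ _ := Real.rpow_le_rpow_of_exponent_le hX (by norm_num)
  have hx0 : 0 < Real.log X := by linarith
  calc ((univ.biUnion T).card : ℝ) * (1 / 2 ^ d.a) ≤ Real.log X * (1 / Real.log X ^ 2) := by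
        refine mul_le_mul (h3.trans d.μ_le) ?_ (by positivity) hx0.le
        exact one_div_le_one_div_of_le (by positivity) h8
    _ = 1 / Real.log X := by field_simp

lemma Data.coprime_t (ht : 1 ≤ t) (hX : 1 ≤ Real.log X) (hXt : (t : ℝ) ≤ Real.log X)
    {T : Fin d.n → Finset ℕ} (hT : T ∈ Fam d.L d.K) :
    (∀ ℓ ∈ un d.𝒟 T, ℓ.Prime ∧ Nat.Coprime (8 * t) ℓ) ∧ Nat.Coprime (md d.𝒟 T) (8 * t) := by
  have key : ∀ ℓ ∈ un d.𝒟 T, ℓ.Prime ∧ Nat.Coprime (8 * t) ℓ := by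
    intro ℓ hℓ
    obtain ⟨hp, h3⟩ := d.sys.prime_un hT hℓ
    refine ⟨hp, ?_⟩
    have h2 : Nat.Coprime 2 ℓ := by
      rw [Nat.coprime_primes Nat.prime_two hp]; omega
    have h8 : Nat.Coprime 8 ℓ := Nat.Coprime.pow_left 3 h2
    refine Nat.Coprime.mul_left h8 ?_
    rw [Nat.coprime_comm, hp.coprime_iff_not_dvd]
    unfold un at hℓ
    rw [mem_union, mem_biUnion] at hℓ
    rcases hℓ with h | ⟨i, _, hi⟩
    · exact (d.D_mod ℓ h).2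
    · intro hd
      have h4 := (d.L_mod i ℓ (((mem_Fam _ _ _).mp hT i).1 hi)).2
      have h5 : ℓ ≤ t := Nat.le_of_dvd ht hd
      have h6 : Real.log X ≤ 2 ^ d.a := by
        refine le_trans ?_ d.a_ge
        calc Real.log X = Real.log X ^ (1 : ℝ) := (Real.rpow_one _).symm
          _ ≤ _ := Real.rpow_le_rpow_of_exponent_le hX (by norm_num)
      have h7 : ((2 ^ d.a : ℕ) : ℝ) < ((ℓ : ℕ) : ℝ) := by exact_mod_cast h4
      have h9 : ((ℓ : ℕ) : ℝ) ≤ t := by exact_mod_cast h5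
      push_cast at h7
      linarith
  refine ⟨key, ?_⟩
  rw [d.sys.md_eq hT]
  exact Nat.Coprime.prod_left fun ℓ hℓ => (key ℓ hℓ).2.symm

end

open Classical in
/-- the multipliers -/
noncomputable def Ow (X t μ A c : ℕ) (U : Finset ℕ) : Finset ℕ :=
  (Ioc (4 * X / A) (2 * (4 * X / A))).filter fun q => q % (8 * t) = c % (8 * t) ∧
    (∀ ℓ ∈ U, ¬ ℓ ∣ q) ∧ ∃ i : ℕ, (24 * t * i + 1) ^ 2 * 4 ^ μ ≤ 3 * (A * q) + 1 ∧
        3 * (A * q) + 1 < (24 * t * i + 5) ^ 2 * 4 ^ μ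

lemma Data.card_Ow_ge {X t s N₀ CD C₁ : ℕ} {c₀ ε : ℝ} (d : Data X t s N₀ CD C₁ c₀ ε)
    (ht : 1 ≤ t) (hX : 2 ^ 16 ≤ X) (hx1 : 1 ≤ Real.log X)
    (hxt : 64 * t / (4 / 5 : ℝ) ^ CD ≤ Real.log X)
    (h4 : (512 * t / (4 / 5 : ℝ) ^ CD) ^ 4 * Real.log X ^ 4 ≤ X)
    (h5 : (24000 * t : ℝ) ^ 2 * Real.log X ^ 2 ≤ X)
    {T : Fin d.n → Finset ℕ} (hT : T ∈ Fam d.L d.K) (c : ℕ) :
    (4 / 5 : ℝ) ^ CD / (200 * t ^ 2) * (X / md d.𝒟 T) ≤
      ((Ow X t d.μ (md d.𝒟 T) c (un d.𝒟 T)).card : ℝ) := by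
  classical
  have htr : (1 : ℝ) ≤ t := by exact_mod_cast ht
  set P₀ : ℝ := (4 / 5 : ℝ) ^ CD with hP₀
  have hP₀0 : 0 < P₀ := by positivity
  have hP₀1 : P₀ ≤ 1 := pow_le_one₀ (by norm_num) (by norm_num)
  set P : ℝ := ∏ ℓ ∈ d.𝒟, (1 - 1 / (ℓ : ℝ)) with hP
  have hPP : P₀ ≤ P := d.prodD_ge
  have hP0 : 0 < P := lt_of_lt_of_le hP₀0 hPP
  have hm1 := d.sys.pos hT
  have hsz := d.size T hT
  obtain ⟨hhs, hcard⟩ := d.hs_T_le hx1 hT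
  have hxt' : (t : ℝ) ≤ Real.log X := by
    refine le_trans ?_ hxt
    rw [le_div_iff₀ hP₀0]
    nlinarith
  obtain ⟨hcop, hmcop⟩ := d.coprime_t ht hx1 hxt' hT
  obtain ⟨q1, q2, q3, q4⟩ := Gen_Q X (md d.𝒟 T) hm1 hsz hX
  have hμ1 : 2 ^ d.μ = 2 * 2 ^ (d.μ - 1) := by
    rw [← pow_succ']; congr 1; have := d.two_le_μ; omega
  have hμ2 : 1 ≤ 2 ^ (d.μ - 1) := Nat.one_le_two_pow
  have hDm : ∏ ℓ ∈ d.𝒟, ℓ ≤ md d.𝒟 T := by
    unfold md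
    refine Nat.le_mul_of_pos_right _ ?_
    refine Nat.pos_of_ne_zero fun h0 => ?_
    unfold md at hm1
    rw [h0] at hm1
    omega
  have hD1 : 1 ≤ ∏ ℓ ∈ d.𝒟, ℓ := Nat.one_le_iff_ne_zero.2 (prod_ne_zero_iff.2 fun ℓ hℓ =>
    (d.sys.primeD ℓ hℓ).1.ne_zero)
  obtain ⟨g1, g2⟩ := Gen_size (K := (univ.biUnion T).card) (D := ∏ ℓ ∈ d.𝒟, ℓ) hm1 hsz hX hx1
    d.μ_le (by omega) hDm hD1 ht hP₀0 rfl h4 h5
  have hw := windows t ht d.𝒟 (univ.biUnion T) (4 ^ d.μ) (md d.𝒟 T) (4 * X / md d.𝒟 T) c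
    (Nat.one_le_pow _ _ (by norm_num)) hm1 q1
    (fun ℓ hℓ => hcop ℓ (mem_union_left _ hℓ))
    (fun ℓ hℓ => (hcop ℓ (mem_union_right _ hℓ)).1.pos) P hP
    (by
      refine hhs.trans ?_
      have h64 : 64 * (t : ℝ) / P ≤ Real.log X := by
        refine le_trans ?_ hxt
        gcongr
      have hx0 : 0 < Real.log X := by linarith
      rw [div_le_div_iff₀ hx0 (by positivity)]
      rw [div_le_iff₀ hP0] at h64
      linarith)
    (by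
      refine le_trans ?_ g1
      have hcast : ∏ ℓ ∈ d.𝒟, (ℓ : ℝ) = ((∏ ℓ ∈ d.𝒟, ℓ : ℕ) : ℝ) := by push_cast; rfl
      rw [hcast]
      gcongr)
    g2
  have hOw : ((Ow X t d.μ (md d.𝒟 T) c (un d.𝒟 T)).card : ℝ) =
      (((Ioc (4 * X / md d.𝒟 T) (2 * (4 * X / md d.𝒟 T))).filter fun q =>
        q % (8 * t) = c % (8 * t) ∧ (∀ ℓ ∈ d.𝒟 ∪ univ.biUnion T, ¬ ℓ ∣ q) ∧
        ∃ i : ℕ, (24 * t * i + 1) ^ 2 * 4 ^ d.μ ≤ 3 * (md d.𝒟 T * q) + 1 ∧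
        3 * (md d.𝒟 T * q) + 1 < (24 * t * i + 5) ^ 2 * 4 ^ d.μ).card : ℝ) := by
    unfold Ow un
    rfl
  rw [hOw]
  refine le_trans ?_ hw
  calc P₀ / (200 * t ^ 2) * (X / md d.𝒟 T) = P₀ * (2 * X / md d.𝒟 T) / (400 * t ^ 2) := by
        field_simp; ring
    _ ≤ P * ((4 * X / md d.𝒟 T : ℕ) : ℝ) / (400 * t ^ 2) := by gcongr


open Classical in
/-- The values of `p(n)` that differ from a periodic sequence, in a class modulo `2 ^ i`. -/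
theorem gen_periodic (t i b N₀ : ℕ) (ht : 1 ≤ t) (h2 : 2 ^ i ∣ t) (r : ℕ → ZMod 2)
    (hr : ∀ n, r (n + t) = r n) (hb : r b = 1) :
    ∃ c : ℝ, 0 < c ∧ ∃ X₀ : ℕ, ∀ X : ℕ, X₀ ≤ X →
      ∀ O : Finset ℕ, (∀ u ∈ O, u ≤ X) → (∀ u ≤ X, N₀ ≤ u → u % 2 ^ i = b % 2 ^ i →
        (Fintype.card (Nat.Partition u) : ZMod 2) ≠ r u → u ∈ O) →
      c * √X * Real.log X / (Real.log (Real.log X)) ^ 2 ≤ (O.card : ℝ) := by
  obtain ⟨CD, C₁, hset⟩ := setup' t 0 N₀ ht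
  have htr : (1 : ℝ) ≤ t := by exact_mod_cast ht
  have ht0 : (0 : ℝ) < t := by linarith
  set P₀ : ℝ := (4 / 5 : ℝ) ^ CD with hP₀
  have hP₀0 : 0 < P₀ := by positivity
  set c₁ : ℝ := P₀ / (3200 * t ^ 2) with hc₁
  have hc₁0 : 0 < c₁ := by positivity
  have hc₁8 : c₁ * 8 = P₀ / (400 * t ^ 2) := by rw [hc₁]; field_simp; norm_num
  obtain ⟨c₀, hc₀, X₁, hX₁⟩ := hset (c₁ / 4) (by positivity)
  obtain ⟨X₂, hX₂⟩ := eventually_log_pow 8 1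
  obtain ⟨X₃, hX₃⟩ := eventually_log_pow 4 ((512 * t / P₀) ^ 4)
  obtain ⟨X₄, hX₄⟩ := eventually_log_pow 2 ((24000 * t : ℝ) ^ 2)
  obtain ⟨X₅, hX₅⟩ := log_large (3 + 64 * t / P₀)
  obtain ⟨X₆, hX₆⟩ : ∃ X₆ : ℕ, ∀ X : ℕ, X₆ ≤ X →
      (2 : ℝ) ^ i ≤ c₀ * Real.log X / (Real.log (Real.log X)) ^ 2 := log_div_large c₀ hc₀ _
  set Cfin := c₁ * 4 * c₀ / (2 * 2 ^ CD * Real.exp 1 * 5) with hCfin
  refine ⟨Cfin, by positivity, max (max (max X₁ X₂) (max X₃ X₄)) (max (max X₅ X₆) (2 ^ 16)),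
    fun X hX O hOX hO => ?_⟩
  have b1 : X₁ ≤ X := by omega
  have b2 : X₂ ≤ X := by omega
  have b3 : X₃ ≤ X := by omega
  have b4 : X₄ ≤ X := by omega
  have b5 : X₅ ≤ X := by omega
  have b6 : X₆ ≤ X := by omega
  have hX16 : 2 ^ 16 ≤ X := by omega
  obtain ⟨d⟩ := hX₁ X b1
  have hX0 : 0 < X := lt_of_lt_of_le (by norm_num) hX16
  have hXr : (0 : ℝ) < X := by exact_mod_cast hX0
  have hlog8 : (Real.log X) ^ 8 ≤ X := by simpa using hX₂ X b2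
  have hlog := hX₅ X b5
  have h64 : 0 ≤ 64 * (t : ℝ) / P₀ := by positivity
  have hx1 : 1 ≤ Real.log X := by linarith
  have hx0 : 0 < Real.log X := by linarith
  have hxt : 64 * (t : ℝ) / P₀ ≤ Real.log X := by linarith
  have hll : 0 < Real.log (Real.log X) := Real.log_pos (by linarith)
  have hxt' : (t : ℝ) ≤ Real.log X := by
    refine le_trans ?_ hxt
    rw [le_div_iff₀ hP₀0]
    have : P₀ ≤ 1 := pow_le_one₀ (by norm_num) (by norm_num)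
    nlinarith
  have hμi : i ≤ d.μ := by
    have h1 := (hX₆ X b6).trans d.μ_ge
    by_contra hlt
    push Not at hlt
    have : (2 : ℝ) ^ d.μ < 2 ^ i := pow_lt_pow_right₀ (by norm_num) hlt
    linarith
  -- the residue classes of the multipliers
  have hres : ∀ T ∈ Fam d.L d.K, ∃ c, md d.𝒟 T * c ≡ 8 * b + (4 ^ d.μ - 1) / 3 [MOD 8 * t] :=
    fun T hT => cg_exists_residue (d.coprime_t ht hx1 hxt' hT).2 (by omega) _
  choose! cT hcT using hres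
  set Ω : (Fin d.n → Finset ℕ) → Finset ℕ := fun T =>
    Ow X t d.μ (md d.𝒟 T) (cT T) (un d.𝒟 T) with hΩ
  have hmemΩ : ∀ T w, w ∈ Ω T ↔ (4 * X / md d.𝒟 T < w ∧ w ≤ 2 * (4 * X / md d.𝒟 T)) ∧
      w % (8 * t) = cT T % (8 * t) ∧ (∀ ℓ ∈ un d.𝒟 T, ¬ ℓ ∣ w) ∧
      ∃ i : ℕ, (24 * t * i + 1) ^ 2 * 4 ^ d.μ ≤ 3 * (md d.𝒟 T * w) + 1 ∧
        3 * (md d.𝒟 T * w) + 1 < (24 * t * i + 5) ^ 2 * 4 ^ d.μ := by
    intro T w
    simp only [hΩ, Ow, mem_filter, mem_Ioc]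
  have hmdY : ∀ T ∈ Fam d.L d.K, md d.𝒟 T ≤ Nat.sqrt (25 * X) / 2 ^ d.μ := by
    intro T hT
    have := d.md_mul_le hlog8 hT 1 (by rw [one_pow]; exact hX0)
    simpa using this
  have key := core_final hc₁0 d Ω O 2 (8 * X) (by norm_num) hx1
    (by
      have h1 : (X : ℝ) / Real.log X ≤ X := div_le_self hXr.le hx1
      linarith) hmdY hOX
    (fun T hT w hw => ((hmemΩ T w).1 hw).2.2.1)
    (fun T hT w hw => by
      obtain ⟨⟨w1, w2⟩, w3, w4, w5⟩ := (hmemΩ T w).1 hw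
      obtain ⟨q1, q2, q3, q4⟩ := Gen_Q X (md d.𝒟 T) (d.sys.pos hT) (d.size T hT) hX16
      obtain ⟨u, hu1, hu2, hu3, hu4⟩ := cover_gen d.sys d.μ i t b X r ht h2 (by omega)
        (by have := d.two_le_μ; omega) hr hb (by have := d.card_eq; omega) hT w4
        ((Nat.ModEq.mul_left _ w3).trans (hcT T hT)) w5
        ((Nat.mul_le_mul_left _ w2).trans q4) hX0
      refine ⟨u, ?_, hu1, hu4⟩
      by_cases h : u < N₀
      · exact Or.inr h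
      · exact Or.inl (hO u hu1 (by omega) hu2 hu3))
    (fun u hu hu1 _ T hT => by
      have h3 := ycount_plain d.μ (md d.𝒟 T) (24 * u - 1) (Nat.sqrt (25 * X) / 2 ^ d.μ)
        (d.sys.squarefree hT) (fun ℓ hℓ => by
          rw [d.sys.primeFactors hT] at hℓ
          have := (d.sys.prime_un hT hℓ).2
          omega) (by omega)
      rw [d.sys.primeFactors hT] at h3
      have h4 : (((Icc 1 (Nat.sqrt (25 * X) / 2 ^ d.μ)).filter fun y : ℕ => ∃ w ∈ Ω T,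
          3 * ((md d.𝒟 T : ℤ) * (w : ℤ)) = (24 * (u : ℤ) - 1) + (2 ^ d.μ * (y : ℤ)) ^ 2).card : ℝ)
          ≤ (((Icc 1 (Nat.sqrt (25 * X) / 2 ^ d.μ)).filter fun y =>
            md d.𝒟 T ∣ 24 * u - 1 + (2 ^ d.μ * y) ^ 2).card : ℝ) := by
        have : ((Icc 1 (Nat.sqrt (25 * X) / 2 ^ d.μ)).filter fun y : ℕ => ∃ w ∈ Ω T,
            3 * ((md d.𝒟 T : ℤ) * (w : ℤ)) = (24 * (u : ℤ) - 1) + (2 ^ d.μ * (y : ℤ)) ^ 2) ⊆
            ((Icc 1 (Nat.sqrt (25 * X) / 2 ^ d.μ)).filter fun y =>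
            md d.𝒟 T ∣ 24 * u - 1 + (2 ^ d.μ * y) ^ 2) := by
          intro y hy
          rw [mem_filter] at hy ⊢
          obtain ⟨hy1, w, _, hy2⟩ := hy
          refine ⟨hy1, 3 * w, ?_⟩
          have e1 : (24 * (u : ℤ) - 1) = ((24 * u - 1 : ℕ) : ℤ) := by
            rw [Nat.cast_sub (by omega)]; push_cast; ring
          rw [e1] at hy2
          have e2 : ((24 * u - 1 + (2 ^ d.μ * y) ^ 2 : ℕ) : ℤ) = ((md d.𝒟 T * (3 * w) : ℕ) : ℤ) := by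
            push_cast
            linarith
          exact_mod_cast e2
        exact_mod_cast card_le_card this
      refine h4.trans (h3.trans ?_)
      have h5 : (0 : ℝ) ≤ ∏ ℓ ∈ un d.𝒟 T, (1 + J ℓ (24 * u - 1)) :=
        prod_nonneg fun ℓ _ => one_add_J_nonneg _ _
      have h6 : (1 : ℝ) ≤ ((Nat.sqrt (25 * X) / 2 ^ d.μ : ℕ) : ℝ) / md d.𝒟 T := by
        have hm0 : (0 : ℝ) < md d.𝒟 T := by exact_mod_cast d.sys.pos hT
        rw [le_div_iff₀ hm0, one_mul]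
        exact_mod_cast hmdY T hT
      calc (∏ ℓ ∈ un d.𝒟 T, (1 + J ℓ (24 * u - 1))) *
            (((Nat.sqrt (25 * X) / 2 ^ d.μ : ℕ) : ℝ) / md d.𝒟 T + 1)
          ≤ (∏ ℓ ∈ un d.𝒟 T, (1 + J ℓ (24 * u - 1))) *
            (2 * (((Nat.sqrt (25 * X) / 2 ^ d.μ : ℕ) : ℝ) / md d.𝒟 T)) :=
            mul_le_mul_of_nonneg_left (by linarith) h5
        _ = _ := by ring)
    (fun T hT => by
      obtain ⟨q1, q2, q3, q4⟩ := Gen_Q X (md d.𝒟 T) (d.sys.pos hT) (d.size T hT) hX16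
      have h1 : (Ω T).card ≤ 4 * X / md d.𝒟 T := by
        refine (card_filter_le _ _).trans ?_
        rw [Nat.card_Ioc]
        omega
      have h2 : ((Ω T).card : ℝ) ≤ ((4 * X / md d.𝒟 T : ℕ) : ℝ) := by exact_mod_cast h1
      refine h2.trans (q3.trans ?_)
      gcongr
      norm_num)
    (by
      have e1 : ∀ T ∈ Fam d.L d.K, P₀ / (200 * t ^ 2) * X / (∏ ℓ ∈ d.𝒟, (ℓ : ℝ)) *
          (1 / (pr T : ℝ)) ≤ ((Ω T).card : ℝ) := by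
        intro T hT
        have h1 := d.card_Ow_ge ht hX16 hx1 hxt (hX₃ X b3) (hX₄ X b4) hT (cT T)
        refine le_trans (le_of_eq ?_) h1
        rw [md_cast, div_mul_div_comm, mul_one, mul_div_assoc]
      refine le_trans ?_ (sum_le_sum e1)
      rw [← mul_sum]
      have hD0 : (0 : ℝ) < ∏ ℓ ∈ d.𝒟, (ℓ : ℝ) := prod_pos fun ℓ hℓ => by
        have := (d.sys.primeD ℓ hℓ).1.pos
        exact_mod_cast this
      have hE := d.EM_pos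
      calc c₁ * (8 * X) * (EM d.L d.K / ∏ ℓ ∈ d.𝒟, (ℓ : ℝ))
          = (c₁ * 8) * X * (EM d.L d.K / ∏ ℓ ∈ d.𝒟, (ℓ : ℝ)) := by ring
        _ = P₀ / (400 * t ^ 2) * X * (EM d.L d.K / ∏ ℓ ∈ d.𝒟, (ℓ : ℝ)) := by rw [hc₁8]
        _ = P₀ / (200 * t ^ 2) * X / (∏ ℓ ∈ d.𝒟, (ℓ : ℝ)) * (EM d.L d.K / 2) := by
            field_simp; norm_num
        _ ≤ _ := mul_le_mul_of_nonneg_left d.EM_le (by positivity))
  -- final computation
  have hsX : 0 < √(X : ℝ) := Real.sqrt_pos.mpr hXr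
  have hsq : √(X : ℝ) * √X = X := Real.mul_self_sqrt hXr.le
  have f2 : 5 * √(X : ℝ) / 2 ^ d.μ ≤ 5 * √X / (c₀ * Real.log X / Real.log (Real.log X) ^ 2) :=
    div_le_div_of_nonneg_left (by positivity) (by positivity) d.μ_ge
  have e2 : c₁ / 2 * (8 * X) ≤ (O.card : ℝ) * (2 * 2 ^ CD * Real.exp 1 *
      (5 * √X / (c₀ * Real.log X / Real.log (Real.log X) ^ 2))) :=
    key.trans (mul_le_mul_of_nonneg_left (mul_le_mul_of_nonneg_left f2 (by positivity))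
      (Nat.cast_nonneg _))
  have e3 : Cfin * √X * Real.log X / Real.log (Real.log X) ^ 2 * (2 * 2 ^ CD * Real.exp 1 *
      (5 * √X / (c₀ * Real.log X / Real.log (Real.log X) ^ 2))) = c₁ / 2 * (8 * X) := by
    rw [hCfin]
    have : √(X : ℝ) ^ 2 = X := by rw [pow_two]; exact hsq
    field_simp
    rw [this]
    ring
  have hpos : 0 < 2 * 2 ^ CD * Real.exp 1 *
      (5 * √X / (c₀ * Real.log X / Real.log (Real.log X) ^ 2)) := by positivity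
  rw [← e3] at e2
  exact le_of_mul_le_mul_right e2 hpos

end Pool.Agent.helper7.OC
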