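import Mathlib

/-!
# Project OC (MP_ebc808_nt): primes in arithmetic progressions, lower bound in dyadic intervals
-/

set_option autoImplicit false

open Finset

namespace Pool.Agent.helper7.OC

namespace PIAP

open ArithmeticFunction (vonMangoldt)

lemma nonprime_le (x : ℕ) (hx : 1 ≤ x) :
    ∑ n ∈ (Ioc 0 x).filter (fun n => ¬ n.Prime), vonMangoldt n ≤ 2 * √(x : ℝ) * Real.log x := by
  have h := Chebyshev.psi_sub_theta_le (x := (x : ℝ)) (by exact_mod_cast hx)
  rw [Chebyshev.psi_sub_theta_eq_sum_not_prime, Nat.floor_natCast] at h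
  exact h

/-- From the Siegel-Walfisz theorem to the number of primes. -/
lemma primes_ap_of (q b : ℕ) (hq : 0 < q) (hb : Nat.Coprime b q)
    (hSW : ∃ C x₀ : ℝ, 0 < C ∧ ∀ x : ℝ, x₀ ≤ x → ∀ q : ℕ, 0 < q →
      (q : ℝ) ≤ Real.log x ^ 1 → ∀ b : ℕ, Nat.Coprime b q → ∀ u : ℕ, (u : ℝ) ≤ x →
      |∑ n ∈ Ioc 0 u with n ≡ b [MOD q], vonMangoldt n - u / (Nat.totient q : ℝ)|
        ≤ C * x / Real.log x ^ 1) :
    ∃ (c : ℝ) (x₀ : ℕ), 0 < c ∧ ∀ x : ℕ, x₀ ≤ x →
      c * x / Real.log x ≤ (((Ioc x (2 * x)).filter fun p => p.Prime ∧ p % q = b % q).card : ℝ) := by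
  obtain ⟨C, x₁, hC, h⟩ := hSW
  have hφ : (0 : ℝ) < Nat.totient q := by exact_mod_cast Nat.totient_pos.2 hq
  -- growth conditions
  have l1 : Filter.Tendsto (fun x : ℝ => Real.log x) Filter.atTop Filter.atTop :=
    Real.tendsto_log_atTop
  have l2 : Filter.Tendsto (fun x : ℝ => Real.log x ^ 2 / x) Filter.atTop (nhds 0) := by
    have := Real.isLittleO_pow_log_id_atTop (n := 2)
    exact this.tendsto_div_nhds_zero
  set δ : ℝ := 1 / (16 * (Nat.totient q : ℝ)) with hδ
  have hδ0 : 0 < δ := by positivity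
  have e1 : ∀ᶠ x : ℝ in Filter.atTop, x₁ ≤ x ∧ 3 ≤ x ∧ (q : ℝ) ≤ Real.log x ∧
      C / δ ≤ Real.log x ∧ Real.log x ^ 2 / x < δ ^ 2 :=
    (Filter.eventually_ge_atTop x₁).and ((Filter.eventually_ge_atTop 3).and
      ((l1.eventually_ge_atTop _).and ((l1.eventually_ge_atTop _).and
        (l2.eventually_lt_const (by positivity)))))
  obtain ⟨Y, hY⟩ := Filter.eventually_atTop.1 e1
  obtain ⟨x₀, hx₀⟩ := exists_nat_ge (max Y 3)
  refine ⟨1 / (4 * (Nat.totient q : ℝ)), x₀, by positivity, fun x hx => ?_⟩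
  have hxY : Y ≤ (x : ℝ) := (le_max_left _ _).trans (hx₀.trans (by exact_mod_cast hx))
  have hx3 : (3 : ℝ) ≤ x := (le_max_right _ _).trans (hx₀.trans (by exact_mod_cast hx))
  set X : ℝ := ((2 * x : ℕ) : ℝ) with hX
  have hX2 : X = 2 * x := by rw [hX]; push_cast; ring
  obtain ⟨f1, f2, f3, f4, f5⟩ := hY X (by rw [hX2]; linarith)
  have hlog : 0 < Real.log X := Real.log_pos (by linarith)
  have hlx : 0 < Real.log x := Real.log_pos (by linarith)
  have g1 := h X f1 q hq (by simpa using f3) b hb (2 * x) (by rw [hX])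
  have g2 := h X f1 q hq (by simpa using f3) b hb x (by rw [hX2]; linarith)
  rw [pow_one] at g1 g2
  have hE : C * X / Real.log X ≤ δ * X := by
    rw [div_le_iff₀ hlog]
    rw [div_le_iff₀ hδ0] at f4
    nlinarith
  -- the sum over the dyadic interval
  have hsplit : ∑ n ∈ Ioc 0 (2 * x) with n ≡ b [MOD q], vonMangoldt n =
      ∑ n ∈ Ioc 0 x with n ≡ b [MOD q], vonMangoldt n +
      ∑ n ∈ Ioc x (2 * x) with n ≡ b [MOD q], vonMangoldt n := by
    rw [← sum_union]
    · congr 1
      rw [← filter_union, Ioc_union_Ioc_eq_Ioc (by omega) (by omega)]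
    · rw [disjoint_left]
      intro n hn hn'
      simp only [mem_filter, mem_Ioc] at hn hn'
      omega
  have hlow : (x : ℝ) / (Nat.totient q : ℝ) - 4 * δ * x ≤
      ∑ n ∈ Ioc x (2 * x) with n ≡ b [MOD q], vonMangoldt n := by
    have a1 := (abs_le.1 g1).1
    have a2 := (abs_le.1 g2).2
    have a3 : ((2 * x : ℕ) : ℝ) / (Nat.totient q : ℝ) = 2 * ((x : ℝ) / (Nat.totient q : ℝ)) := by
      push_cast; ring
    rw [hsplit, a3] at a1
    rw [hX2] at hE a1 a2
    nlinarith
  have hup : ∑ n ∈ Ioc x (2 * x) with n ≡ b [MOD q], vonMangoldt n ≤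
      (((Ioc x (2 * x)).filter fun p => p.Prime ∧ p % q = b % q).card : ℝ) * Real.log X
        + 2 * √X * Real.log X := by
    rw [← sum_filter_add_sum_filter_not ((Ioc x (2 * x)).filter fun n => n ≡ b [MOD q])
      (fun n => n.Prime)]
    refine add_le_add ?_ ?_
    · rw [filter_filter, ← nsmul_eq_mul, ← sum_const]
      have : ((Ioc x (2 * x)).filter fun n => n ≡ b [MOD q] ∧ n.Prime) =
          ((Ioc x (2 * x)).filter fun p => p.Prime ∧ p % q = b % q) := by
        ext n
        simp only [mem_filter, Nat.ModEq]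
        tauto
      rw [this]
      refine sum_le_sum fun n hn => ?_
      rw [mem_filter, mem_Ioc] at hn
      rw [ArithmeticFunction.vonMangoldt_apply_prime hn.2.1]
      exact Real.log_le_log (by exact_mod_cast hn.2.1.pos) (by rw [hX]; exact_mod_cast hn.1.2)
    · refine le_trans (sum_le_sum_of_subset_of_nonneg ?_ ?_) (nonprime_le (2 * x) (by
        have : (1 : ℝ) ≤ x := by linarith
        have : 1 ≤ x := by exact_mod_cast this
        omega))
      · intro n hn
        simp only [mem_filter, mem_Ioc] at hn ⊢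
        exact ⟨by omega, hn.2⟩
      · intro n _ _
        exact ArithmeticFunction.vonMangoldt_nonneg
  have hs : √X * Real.log X ≤ δ * X := by
    have hXp : 0 < X := by linarith
    have b1 : Real.log X ^ 2 ≤ δ ^ 2 * X := by
      rw [div_lt_iff₀ hXp] at f5
      exact f5.le
    have b2 : Real.log X ≤ δ * √X := by
      have : Real.log X ≤ √(δ ^ 2 * X) := Real.le_sqrt_of_sq_le b1
      rwa [Real.sqrt_mul (by positivity), Real.sqrt_sq hδ0.le] at this
    calc √X * Real.log X ≤ √X * (δ * √X) := by gcongr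
      _ = δ * (√X * √X) := by ring
      _ = δ * X := by rw [Real.mul_self_sqrt hXp.le]
  set N := (((Ioc x (2 * x)).filter fun p => p.Prime ∧ p % q = b % q).card : ℝ) with hN
  have hfin : (x : ℝ) / (Nat.totient q : ℝ) - 8 * δ * x ≤ N * Real.log X := by
    have := hlow.trans hup
    rw [hX2] at hs
    rw [hX2] at this
    rw [hX2]
    nlinarith
  have hlX : Real.log X ≤ 2 * Real.log x := by
    rw [hX2, Real.log_mul (by norm_num) (by linarith)]
    have : Real.log 2 ≤ Real.log x := Real.log_le_log (by norm_num) (by linarith)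
    linarith
  have hN0 : 0 ≤ N := by positivity
  have h8 : (x : ℝ) / (Nat.totient q : ℝ) - 8 * δ * x = x / (2 * (Nat.totient q : ℝ)) := by
    rw [hδ]; field_simp; ring
  rw [h8] at hfin
  have h9 : (x : ℝ) / (2 * (Nat.totient q : ℝ)) ≤ N * (2 * Real.log x) :=
    hfin.trans (by gcongr)
  rw [div_le_iff₀ hlx]
  have h10 : 1 / (4 * (Nat.totient q : ℝ)) * x = x / (2 * (Nat.totient q : ℝ)) / 2 := by
    field_simp; ring
  rw [h10]
  linarith

end PIAP

end Pool.Agent.helper7.OC
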